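import Mathlib

/-!
Rigid isotopy, basic tools: real ternary forms of degree d as coefficient vectors, singular points,
linear substitutions.
-/

open MvPolynomial

namespace Pool.Agent.Helper5.RI

/-- the exponents of degree `d` -/
def idx (d : ℕ) : Finset (Fin 3 →₀ ℕ) := Finset.univ.finsuppAntidiag d

theorem mem_idx {d : ℕ} {s : Fin 3 →₀ ℕ} : s ∈ idx d ↔ s 0 + s 1 + s 2 = d := by
  simp [idx, Finset.mem_finsuppAntidiag, Fin.sum_univ_three]

/-- coefficient vectors of forms of degree `d` -/
abbrev E (d : ℕ) : Type := (idx d) → ℝ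

/-- the form with given coefficients -/
noncomputable def toPoly {d : ℕ} (c : E d) : MvPolynomial (Fin 3) ℝ :=
  ∑ s : idx d, monomial s.1 (c s)

/-- the coefficients of a form -/
def coefVec (d : ℕ) (F : MvPolynomial (Fin 3) ℝ) : E d := fun s => coeff s.1 F

theorem coeff_toPoly {d : ℕ} (c : E d) (m : Fin 3 →₀ ℕ) :
    coeff m (toPoly c) = if h : m ∈ idx d then c ⟨m, h⟩ else 0 := by
  classical
  simp only [toPoly, coeff_sum, coeff_monomial]
  split_ifs with h
  · rw [Finset.sum_eq_single (⟨m, h⟩ : idx d)]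
    · simp
    · intro b _ hb
      rw [if_neg]
      intro hbm
      exact hb (Subtype.ext hbm)
    · simp
  · apply Finset.sum_eq_zero
    intro b _
    rw [if_neg]
    intro hbm
    exact h (hbm ▸ b.2)

theorem coefVec_toPoly {d : ℕ} (c : E d) : coefVec d (toPoly c) = c := by
  funext s
  simp [coefVec, coeff_toPoly]

theorem degree_eq (s : Fin 3 →₀ ℕ) : s.degree = s 0 + s 1 + s 2 := by
  rw [Finsupp.degree_eq_sum, Fin.sum_univ_three]

theorem isHomogeneous_iff {d : ℕ} {F : MvPolynomial (Fin 3) ℝ} :
    F.IsHomogeneous d ↔ ∀ m, coeff m F ≠ 0 → m ∈ idx d := by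
  constructor
  · intro h m hm
    rw [mem_idx]
    have := h hm
    rw [← this, show (1 : Fin 3 → ℕ) = fun _ => 1 from rfl, ← Finsupp.degree_eq_weight_one,
      degree_eq]
  · intro h m hm
    have := mem_idx.1 (h m hm)
    rw [show (1 : Fin 3 → ℕ) = fun _ => 1 from rfl, ← Finsupp.degree_eq_weight_one,
      degree_eq, this]

theorem toPoly_homogeneous {d : ℕ} (c : E d) : (toPoly c).IsHomogeneous d := by
  rw [isHomogeneous_iff]
  intro m hm
  rw [coeff_toPoly] at hm
  by_contra h
  exact hm (dif_neg h)

theorem toPoly_coefVec {d : ℕ} {F : MvPolynomial (Fin 3) ℝ} (h : F.IsHomogeneous d) :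
    toPoly (coefVec d F) = F := by
  ext m
  rw [coeff_toPoly]
  split_ifs with hm
  · rfl
  · by_contra h0
    exact hm (isHomogeneous_iff.1 h m (fun h1 => h0 h1.symm))

/-- toPoly as a linear map -/
noncomputable def toPolyL (d : ℕ) : E d →ₗ[ℝ] MvPolynomial (Fin 3) ℝ where
  toFun := toPoly
  map_add' c c' := by
    simp [toPoly, Finset.sum_add_distrib]
  map_smul' r c := by
    simp only [toPoly, Finset.smul_sum, Pi.smul_apply, RingHom.id_apply, smul_monomial]

@[simp] theorem toPolyL_apply {d : ℕ} (c : E d) : toPolyL d c = toPoly c := rfl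

theorem toPoly_smul {d : ℕ} (r : ℝ) (c : E d) : toPoly (r • c) = r • toPoly c :=
  (toPolyL d).map_smul r c

theorem toPoly_neg {d : ℕ} (c : E d) : toPoly (-c) = - toPoly c :=
  (toPolyL d).map_neg c

/-- derivative of a form in a direction -/
theorem hasDerivAt_aeval {K : Type*} [RCLike K] (F : MvPolynomial (Fin 3) ℝ) (x w : Fin 3 → K) :
    HasDerivAt (fun t : K => aeval (x + t • w) F)
      (∑ i, w i * aeval x (pderiv i F)) 0 := by
  induction F using MvPolynomial.induction_on with
  | C a =>
    simp only [pderiv_C, map_zero, mul_zero, Finset.sum_const_zero, algHom_C]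
    exact hasDerivAt_const _ _
  | add p q hp hq =>
    have := hp.add hq
    simp only [map_add, mul_add, Finset.sum_add_distrib]
    exact this
  | mul_X p n hp =>
    have h2 : HasDerivAt (fun t : K => (x + t • w) n) (w n) 0 := by
      have : HasDerivAt (fun t : K => x n + t * w n) (1 * w n) 0 :=
        ((hasDerivAt_id (0 : K)).mul_const (w n)).const_add (x n)
      simpa using this
    have h3 := hp.mul h2
    simp only [map_mul, aeval_X]
    refine h3.congr_deriv ?_
    rw [zero_smul, add_zero, Finset.sum_mul]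
    have : ∀ i, w i * aeval x (pderiv i (p * X n)) =
        w i * aeval x (pderiv i p) * x n + (if i = n then w n * aeval x p else 0) := by
      intro i
      rw [pderiv_mul, map_add, map_mul, map_mul, aeval_X]
      split_ifs with h
      · subst h
        rw [pderiv_X_self, map_one]
        ring
      · rw [pderiv_X_of_ne (Ne.symm h), map_zero]
        ring
    simp only [this, Finset.sum_add_distrib, Finset.sum_ite_eq', Finset.mem_univ, if_true]
    ring

/-- all partial derivatives vanish at x -/
def Sing {K : Type*} [RCLike K] (F : MvPolynomial (Fin 3) ℝ) (x : Fin 3 → K) : Prop :=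
  ∀ i, aeval x (pderiv i F) = 0

theorem sing_iff {K : Type*} [RCLike K] (F : MvPolynomial (Fin 3) ℝ) (x : Fin 3 → K) :
    Sing F x ↔ ∀ w : Fin 3 → K, HasDerivAt (fun t : K => aeval (x + t • w) F) 0 0 := by
  constructor
  · intro h w
    have := hasDerivAt_aeval F x w
    simpa [h _] using this
  · intro h i
    have h1 := hasDerivAt_aeval F x (Pi.single i 1)
    have h2 := h1.unique (h (Pi.single i 1))
    rw [Finset.sum_eq_single i] at h2
    · simpa using h2
    · intro b _ hb
      simp [hb]
    · simp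

/-- linear substitution -/
noncomputable def comp (B : Matrix (Fin 3) (Fin 3) ℝ) (F : MvPolynomial (Fin 3) ℝ) :
    MvPolynomial (Fin 3) ℝ :=
  aeval (fun i => ∑ j, C (B i j) * X j) F

/-- action of a real matrix on vectors -/
def act {K : Type*} [RCLike K] (B : Matrix (Fin 3) (Fin 3) ℝ) (x : Fin 3 → K) : Fin 3 → K :=
  fun i => ∑ j, (B i j : K) * x j

theorem aeval_comp {K : Type*} [RCLike K] (B : Matrix (Fin 3) (Fin 3) ℝ)
    (F : MvPolynomial (Fin 3) ℝ) (x : Fin 3 → K) :
    aeval x (comp B F) = aeval (act B x) F := by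
  rw [comp]
  have : ∀ F : MvPolynomial (Fin 3) ℝ,
      ((aeval x : MvPolynomial (Fin 3) ℝ →ₐ[ℝ] K).comp
        (aeval (fun i => ∑ j, C (B i j) * X j) : MvPolynomial (Fin 3) ℝ →ₐ[ℝ] _)) F =
      (aeval (act B x) : MvPolynomial (Fin 3) ℝ →ₐ[ℝ] K) F := by
    intro F
    congr 1
    apply MvPolynomial.algHom_ext
    intro i
    simp [act, RCLike.algebraMap_eq_ofReal]
  exact this F

theorem act_add {K : Type*} [RCLike K] (B : Matrix (Fin 3) (Fin 3) ℝ) (x y : Fin 3 → K) :
    act B (x + y) = act B x + act B y := by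
  funext i
  simp [act, mul_add, Finset.sum_add_distrib]

theorem act_smul {K : Type*} [RCLike K] (B : Matrix (Fin 3) (Fin 3) ℝ) (t : K) (x : Fin 3 → K) :
    act B (t • x) = t • act B x := by
  funext i
  simp only [act, Pi.smul_apply, smul_eq_mul, Finset.mul_sum]
  apply Finset.sum_congr rfl
  intro j _
  ring

theorem act_act {K : Type*} [RCLike K] (B B' : Matrix (Fin 3) (Fin 3) ℝ) (x : Fin 3 → K) :
    act B (act B' x) = act (B * B') x := by
  funext i
  simp only [act, Matrix.mul_apply]
  simp only [Finset.mul_sum]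
  rw [Finset.sum_comm]
  apply Finset.sum_congr rfl
  intro j _
  push_cast
  rw [Finset.sum_mul]
  apply Finset.sum_congr rfl
  intro k _
  ring

theorem act_one {K : Type*} [RCLike K] (x : Fin 3 → K) : act 1 x = x := by
  funext i
  simp [act, Matrix.one_apply, Finset.sum_ite_eq]

/-- a singular point of F at Bx gives a singular point of the composed form at x -/
theorem sing_comp {K : Type*} [RCLike K] (B : Matrix (Fin 3) (Fin 3) ℝ)
    (F : MvPolynomial (Fin 3) ℝ) (x : Fin 3 → K) (h : Sing F (act B x)) :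
    Sing (comp B F) x := by
  rw [sing_iff] at h ⊢
  intro w
  have := h (act B w)
  simp only [aeval_comp, act_add, act_smul]
  exact this

theorem aeval_eq (x : Fin 3 → ℝ) (F : MvPolynomial (Fin 3) ℝ) : aeval x F = eval x F := by
  rw [← coe_aeval_eq_eval]
  rfl

theorem comp_comp (B B' : Matrix (Fin 3) (Fin 3) ℝ) (F : MvPolynomial (Fin 3) ℝ) :
    comp B (comp B' F) = comp (B' * B) F := by
  apply MvPolynomial.funext
  intro x
  have h := aeval_comp (K := ℝ) B (comp B' F) x
  have h2 := aeval_comp (K := ℝ) B' F (act B x)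
  have h3 := aeval_comp (K := ℝ) (B' * B) F x
  rw [← act_act, ← h2, ← h] at h3
  rw [aeval_eq, aeval_eq] at h3
  exact h3.symm

theorem comp_one (F : MvPolynomial (Fin 3) ℝ) : comp 1 F = F := by
  apply MvPolynomial.funext
  intro x
  have h := aeval_comp (K := ℝ) 1 F x
  rw [act_one, aeval_eq, aeval_eq] at h
  exact h

theorem sing_comp_iff {K : Type*} [RCLike K] (B B' : Matrix (Fin 3) (Fin 3) ℝ) (hB : B * B' = 1)
    (F : MvPolynomial (Fin 3) ℝ) (x : Fin 3 → K) :
    Sing (comp B F) x ↔ Sing F (act B x) := by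
  constructor
  · intro h
    have hB2 : B' * B = 1 := by
      exact mul_eq_one_comm.1 hB
    have h1 : Sing (comp B' (comp B F)) (act B x) := by
      apply sing_comp
      rw [act_act, hB2, act_one]
      exact h
    rw [comp_comp, hB, comp_one] at h1
    exact h1
  · exact sing_comp B F x

theorem comp_homogeneous {d : ℕ} (B : Matrix (Fin 3) (Fin 3) ℝ) {F : MvPolynomial (Fin 3) ℝ}
    (h : F.IsHomogeneous d) : (comp B F).IsHomogeneous d := by
  have := h.aeval (fun i => ∑ j, C (B i j) * X j) (n := 1) (by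
    intro i
    apply IsHomogeneous.sum
    intro j _
    have := (isHomogeneous_C (Fin 3) (B i j)).mul (isHomogeneous_X ℝ j)
    simpa using this)
  simpa [comp] using this

/-- homogeneity of evaluation -/
theorem aeval_smul {K : Type*} [RCLike K] {d : ℕ} {F : MvPolynomial (Fin 3) ℝ}
    (h : F.IsHomogeneous d) (t : K) (x : Fin 3 → K) :
    aeval (t • x) F = t ^ d * aeval x F := by
  rw [aeval_def, aeval_def, eval₂_eq', eval₂_eq', Finset.mul_sum]
  apply Finset.sum_congr rfl
  intro m hm
  have h1 := mem_idx.1 (isHomogeneous_iff.1 h m (by simpa using hm))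
  simp only [Pi.smul_apply, smul_eq_mul, Fin.prod_univ_three, mul_pow]
  rw [← h1, pow_add, pow_add]
  ring

end Pool.Agent.Helper5.RI
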