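import Mathlib

/-!
The one-dimensional lemma: a polynomial with exactly one sign change on (0,oo) keeps this property
under the multipliers 1/((j+a)(m+a-j)); here we only need that no double zero arises.
-/

namespace Pool.Agent.Helper5.RI

open Finset

theorem h1_neg (m : ℕ) (a : ℕ → ℝ) (α : ℝ) (hα : 0 < α) (t : ℝ) (ht : 0 < t)
    (hf : ∀ s, 0 < s → s < t → ∑ j ∈ range (m + 1), a j * s ^ j < 0) :
    ∑ j ∈ range (m + 1), a j * t ^ j / (j + α) < 0 := by
  let φ : ℝ → ℝ := fun s => ∑ j ∈ range (m + 1), a j / (j + α) * s ^ ((j : ℝ) + α)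
  have hφc : ContinuousOn φ (Set.Icc 0 t) := by
    apply Continuous.continuousOn
    apply continuous_finsetSum
    intro j _
    apply Continuous.mul continuous_const
    exact Real.continuous_rpow_const (by positivity)
  have hφd : ∀ s, 0 < s → HasDerivAt φ (s ^ (α - 1) * ∑ j ∈ range (m + 1), a j * s ^ j) s := by
    intro s hs
    have h1 : HasDerivAt φ (∑ j ∈ range (m + 1), a j / (j + α) *
        (((j : ℝ) + α) * s ^ ((j : ℝ) + α - 1))) s := by
      apply HasDerivAt.fun_sum
      intro j _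
      exact (Real.hasDerivAt_rpow_const (Or.inl hs.ne')).const_mul _
    refine h1.congr_deriv ?_
    rw [Finset.mul_sum]
    apply Finset.sum_congr rfl
    intro j _
    have hj : (j : ℝ) + α ≠ 0 := by positivity
    have h2 : s ^ ((j : ℝ) + α - 1) = s ^ (α - 1) * s ^ j := by
      rw [show (j : ℝ) + α - 1 = (α - 1) + (j : ℝ) by ring, Real.rpow_add hs,
        Real.rpow_natCast]
    rw [h2]
    field_simp
  have hanti : StrictAntiOn φ (Set.Icc 0 t) := by
    apply strictAntiOn_of_deriv_neg (convex_Icc 0 t) hφc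
    intro s hs
    rw [interior_Icc] at hs
    rw [(hφd s hs.1).deriv]
    exact mul_neg_of_pos_of_neg (Real.rpow_pos_of_pos hs.1 _) (hf s hs.1 hs.2)
  have h0 : φ 0 = 0 := by
    apply Finset.sum_eq_zero
    intro j _
    rw [Real.zero_rpow (by positivity), mul_zero]
  have h3 := hanti (Set.left_mem_Icc.2 ht.le) (Set.right_mem_Icc.2 ht.le) ht
  rw [h0] at h3
  have h4 : φ t = t ^ α * ∑ j ∈ range (m + 1), a j * t ^ j / (j + α) := by
    show ∑ j ∈ range (m + 1), a j / (j + α) * t ^ ((j : ℝ) + α) = _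
    rw [Finset.mul_sum]
    apply Finset.sum_congr rfl
    intro j _
    rw [show (j : ℝ) + α = α + (j : ℝ) by ring, Real.rpow_add ht, Real.rpow_natCast]
    ring
  rw [h4] at h3
  have h5 : 0 < t ^ α := Real.rpow_pos_of_pos ht _
  by_contra h6
  push Not at h6
  have := mul_nonneg h5.le h6
  linarith

theorem h2_pos (m : ℕ) (a : ℕ → ℝ) (α : ℝ) (hα : 0 < α) (t : ℝ) (ht : 0 < t)
    (hf : ∀ s, t < s → 0 < ∑ j ∈ range (m + 1), a j * s ^ j) :
    0 < ∑ j ∈ range (m + 1), a j * t ^ j / (m + α - j) := by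
  have key := h1_neg m (fun j => - a (m - j)) α hα t⁻¹ (inv_pos.2 ht) (by
    intro s hs hst
    have h1 : t < s⁻¹ := by
      rw [lt_inv_comm₀ ht hs]
      exact hst
    have h2 := hf s⁻¹ h1
    have h3 : ∑ j ∈ range (m + 1), -a (m - j) * s ^ j =
        - (s ^ m * ∑ j ∈ range (m + 1), a j * s⁻¹ ^ j) := by
      rw [← Finset.sum_range_reflect (fun j => a j * s⁻¹ ^ j), Finset.mul_sum,
        ← Finset.sum_neg_distrib]
      apply Finset.sum_congr rfl
      intro j hj
      have hj' : j ≤ m := by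
        have := Finset.mem_range.1 hj
        omega
      have h4 : m + 1 - 1 - j = m - j := by omega
      rw [h4]
      have h5 : s ^ m = s ^ (m - j) * s ^ j := by
        rw [← pow_add]
        congr 1
        omega
      rw [h5, inv_pow]
      have : s ^ (m - j) ≠ 0 := (pow_pos hs _).ne'
      field_simp
    rw [h3]
    have : 0 < s ^ m := pow_pos hs _
    have := mul_pos this h2
    linarith)
  have h3 : ∑ j ∈ range (m + 1), -a (m - j) * t⁻¹ ^ j / (j + α) =
      - ((t⁻¹) ^ m * ∑ j ∈ range (m + 1), a j * t ^ j / (m + α - j)) := by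
    rw [← Finset.sum_range_reflect (fun j : ℕ => a j * t ^ j / (m + α - j)), Finset.mul_sum,
      ← Finset.sum_neg_distrib]
    apply Finset.sum_congr rfl
    intro j hj
    have hj' : j ≤ m := by
      have := Finset.mem_range.1 hj
      omega
    have h4 : m + 1 - 1 - j = m - j := by omega
    rw [h4]
    have h5 : t⁻¹ ^ m = t⁻¹ ^ (m - j) * t⁻¹ ^ j := by
      rw [← pow_add]
      congr 1
      omega
    have h6 : (m : ℝ) + α - ((m - j : ℕ) : ℝ) = j + α := by
      rw [Nat.cast_sub hj']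
      ring
    rw [h5, h6]
    have h7 : t⁻¹ ^ (m - j) * t ^ (m - j) = 1 := by
      rw [← mul_pow, inv_mul_cancel₀ ht.ne', one_pow]
    calc -a (m - j) * t⁻¹ ^ j / (j + α) = -(a (m - j) * t⁻¹ ^ j / (j + α)) := by ring
      _ = -((t⁻¹ ^ (m - j) * t ^ (m - j)) * (a (m - j) * t⁻¹ ^ j / (j + α))) := by
          rw [h7, one_mul]
      _ = _ := by ring
  rw [h3] at key
  have h5 : 0 < t⁻¹ ^ m := pow_pos (inv_pos.2 ht) _
  by_contra h6
  push Not at h6
  have := mul_nonpos_of_nonneg_of_nonpos h5.le h6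
  linarith

/-- no double zero -/
theorem no_double (m : ℕ) (a : ℕ → ℝ) (α : ℝ) (hα : 0 < α) (t₀ : ℝ)
    (hneg : ∀ s, 0 < s → s < t₀ → ∑ j ∈ range (m + 1), a j * s ^ j < 0)
    (hpos : ∀ s, t₀ < s → 0 < ∑ j ∈ range (m + 1), a j * s ^ j)
    (κ : ℝ) (hκ : κ ≠ 0)
    (e1 : ∑ j ∈ range (m + 1), κ / ((j + α) * (m + α - j)) * a j = 0)
    (e2 : ∑ j ∈ range (m + 1), j * (κ / ((j + α) * (m + α - j)) * a j) = 0) : False := by
  have hj1 : ∀ j ∈ range (m + 1), (0 : ℝ) < j + α := fun j _ => by positivity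
  have hj2 : ∀ j ∈ range (m + 1), (0 : ℝ) < m + α - j := by
    intro j hj
    have : j ≤ m := by
      have := Finset.mem_range.1 hj
      omega
    have : (j : ℝ) ≤ m := by exact_mod_cast this
    linarith
  have E1 : ∑ j ∈ range (m + 1), a j * 1 ^ j / (j + α) =
      ((m + α) * (∑ j ∈ range (m + 1), κ / ((j + α) * (m + α - j)) * a j) -
      ∑ j ∈ range (m + 1), j * (κ / ((j + α) * (m + α - j)) * a j)) / κ := by
    rw [Finset.mul_sum, ← Finset.sum_sub_distrib, Finset.sum_div]
    apply Finset.sum_congr rfl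
    intro j hj
    have h1 := (hj1 j hj).ne'
    have h2 := (hj2 j hj).ne'
    rw [one_pow]
    field_simp
  have E2 : ∑ j ∈ range (m + 1), a j * 1 ^ j / (m + α - j) =
      (α * (∑ j ∈ range (m + 1), κ / ((j + α) * (m + α - j)) * a j) +
      ∑ j ∈ range (m + 1), j * (κ / ((j + α) * (m + α - j)) * a j)) / κ := by
    rw [Finset.mul_sum, ← Finset.sum_add_distrib, Finset.sum_div]
    apply Finset.sum_congr rfl
    intro j hj
    have h1 := (hj1 j hj).ne'
    have h2 := (hj2 j hj).ne'
    rw [one_pow]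
    field_simp
    ring
  rw [e1, e2] at E1 E2
  rcases le_or_gt 1 t₀ with h | h
  · have := h1_neg m a α hα 1 one_pos (fun s hs hs1 => hneg s hs (lt_of_lt_of_le hs1 h))
    rw [E1] at this
    simp at this
  · have := h2_pos m a α hα 1 one_pos (fun s hs => hpos s (h.trans hs))
    rw [E2] at this
    simp at this

end Pool.Agent.Helper5.RI
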