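import Mathlib
import Pool.Agent.Helper5.RI.Base
import Pool.Agent.Helper5.RI.OneDim

/-!
The flow: a standard star-shaped form is joined to F_0 z^d + F_d(x,y) through forms without real
singular points.
-/

open MvPolynomial Finset

namespace Pool.Agent.Helper5.RI

/-- forms of degree d without real singular point -/
def U (d : ℕ) : Set (E d) := {c | ∀ x : Fin 3 → ℝ, Sing (toPoly c) x → x = 0}

/-- the value of the part of bidegree (j, d-j) -/
noncomputable def part {d : ℕ} (j : ℕ) (c : E d) (x : Fin 3 → ℝ) : ℝ :=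
  ∑ s : idx d, if s.1 0 + s.1 1 = j then c s * (x 0 ^ s.1 0 * x 1 ^ s.1 1 * x 2 ^ s.1 2) else 0

theorem aeval_toPoly {d : ℕ} (c : E d) (x : Fin 3 → ℝ) :
    aeval x (toPoly c) = ∑ s : idx d, c s * (x 0 ^ s.1 0 * x 1 ^ s.1 1 * x 2 ^ s.1 2) := by
  rw [toPoly, map_sum]
  apply Finset.sum_congr rfl
  intro s _
  rw [aeval_monomial, Finsupp.prod_fintype _ _ (fun _ => pow_zero _), Fin.prod_univ_three]
  rfl

/-- multiply the parts by weights -/
def diag {d : ℕ} (w : ℕ → ℝ) (c : E d) : E d := fun s => w (s.1 0 + s.1 1) * c s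

theorem part_diag {d : ℕ} (w : ℕ → ℝ) (c : E d) (j : ℕ) (x : Fin 3 → ℝ) :
    part j (diag w c) x = w j * part j c x := by
  rw [part, part, Finset.mul_sum]
  apply Finset.sum_congr rfl
  intro s _
  split_ifs with h
  · rw [diag, h]
    ring
  · rw [mul_zero]

/-- scaling the first two coordinates -/
def sc (t : ℝ) (x : Fin 3 → ℝ) : Fin 3 → ℝ := ![t * x 0, t * x 1, x 2]

theorem part_sc {d : ℕ} (j : ℕ) (c : E d) (t : ℝ) (x : Fin 3 → ℝ) :
    part j c (sc t x) = t ^ j * part j c x := by
  rw [part, part, Finset.mul_sum]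
  apply Finset.sum_congr rfl
  intro s _
  split_ifs with h
  · simp only [sc, Matrix.cons_val_zero, Matrix.cons_val_one, Matrix.cons_val]
    rw [mul_pow, mul_pow, ← h, pow_add]
    ring
  · rw [mul_zero]

theorem sum_part {d : ℕ} (c : E d) (x : Fin 3 → ℝ) :
    aeval x (toPoly c) = ∑ j ∈ range (d + 1), part j c x := by
  rw [aeval_toPoly]
  simp only [part]
  rw [Finset.sum_comm]
  apply Finset.sum_congr rfl
  intro s _
  rw [Finset.sum_ite_eq]
  rw [if_pos]
  have := mem_idx.1 s.2
  rw [Finset.mem_range]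
  omega

theorem aeval_sc {d : ℕ} (c : E d) (t : ℝ) (x : Fin 3 → ℝ) :
    aeval (sc t x) (toPoly c) = ∑ j ∈ range (d + 1), part j c x * t ^ j := by
  rw [sum_part]
  apply Finset.sum_congr rfl
  intro j _
  rw [part_sc, mul_comm]

/-- at a real singular point the two sums vanish -/
theorem sing_parts {d : ℕ} (hd : d ≠ 0) (c : E d) (x : Fin 3 → ℝ) (h : Sing (toPoly c) x) :
    ∑ j ∈ range (d + 1), part j c x = 0 ∧ ∑ j ∈ range (d + 1), j * part j c x = 0 := by
  rw [sing_iff] at h
  constructor
  · have h1 := h x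
    have h2 : (fun t : ℝ => aeval (x + t • x) (toPoly c)) =
        fun t : ℝ => (1 + t) ^ d * aeval x (toPoly c) := by
      funext t
      rw [show x + t • x = (1 + t) • x by rw [add_smul, one_smul]]
      exact aeval_smul (toPoly_homogeneous c) _ _
    rw [h2] at h1
    have h3 : HasDerivAt (fun t : ℝ => (1 + t) ^ d * aeval x (toPoly c))
        ((d : ℝ) * (1 + 0) ^ (d - 1) * 1 * aeval x (toPoly c)) 0 := by
      apply HasDerivAt.mul_const
      have := ((hasDerivAt_id (0 : ℝ)).const_add 1).pow d
      exact this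
    have h4 := h3.unique h1
    rw [← sum_part]
    have hd' : (d : ℝ) ≠ 0 := by exact_mod_cast hd
    simpa [hd'] using h4
  · have h1 := h ![x 0, x 1, 0]
    have h2 : (fun t : ℝ => aeval (x + t • ![x 0, x 1, 0]) (toPoly c)) =
        fun t : ℝ => ∑ j ∈ range (d + 1), part j c x * (1 + t) ^ j := by
      funext t
      rw [← aeval_sc]
      congr 2
      funext i
      fin_cases i
      · simp [sc]
        ring
      · simp [sc]
        ring
      · simp [sc]
    rw [h2] at h1
    have h3 : HasDerivAt (fun t : ℝ => ∑ j ∈ range (d + 1), part j c x * (1 + t) ^ j)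
        (∑ j ∈ range (d + 1), part j c x * ((j : ℝ) * (1 + 0) ^ (j - 1) * 1)) 0 := by
      apply HasDerivAt.fun_sum
      intro j _
      have := (((hasDerivAt_id (0 : ℝ)).const_add 1).pow j).const_mul (part j c x)
      exact this
    have h4 := h3.unique h1
    rw [← h4]
    apply Finset.sum_congr rfl
    intro j _
    rw [add_zero, one_pow]
    ring

/-- standard star-shaped forms: centre (0,0,1), line z = 0 -/
def Std {d : ℕ} (c : E d) : Prop :=
  aeval ![0, 0, 1] (toPoly c) < (0 : ℝ) ∧
  (∀ v : Fin 3 → ℝ, v ≠ 0 → v 2 = 0 → 0 < aeval v (toPoly c)) ∧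
  (∀ v : Fin 3 → ℝ, v ≠ 0 → v 2 = 0 → ∃ t₀ : ℝ, 0 < t₀ ∧ ∀ t : ℝ, 0 < t →
    (t < t₀ → aeval (![0, 0, 1] + t • v) (toPoly c) < 0) ∧
    (t₀ < t → 0 < aeval (![0, 0, 1] + t • v) (toPoly c)))

theorem part_zero {d : ℕ} (c : E d) (x : Fin 3 → ℝ) :
    part 0 c x = aeval (sc 0 x) (toPoly c) := by
  rw [aeval_sc, Finset.sum_eq_single 0]
  · simp
  · intro j _ hj
    rw [zero_pow hj, mul_zero]
  · simp

theorem part_top {d : ℕ} (c : E d) (x : Fin 3 → ℝ) :
    part d c x = aeval ![x 0, x 1, 0] (toPoly c) := by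
  rw [sum_part, Finset.sum_eq_single d]
  · rw [part, part]
    apply Finset.sum_congr rfl
    intro s _
    split_ifs with h
    · have : s.1 2 = 0 := by
        have := mem_idx.1 s.2
        omega
      rw [this]
      simp
    · rfl
  · intro j hj hjd
    rw [part]
    apply Finset.sum_eq_zero
    intro s _
    split_ifs with h
    · have h1 : s.1 2 ≠ 0 := by
        have := mem_idx.1 s.2
        omega
      simp [h1]
    · rfl
  · simp

/-- the two-term forms -/
def K0 (d : ℕ) : Set (E d) :=
  {c | (∀ s, s.1 0 + s.1 1 ≠ 0 → s.1 0 + s.1 1 ≠ d → c s = 0) ∧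
    aeval ![0, 0, 1] (toPoly c) < (0 : ℝ) ∧
    (∀ v : Fin 3 → ℝ, v ≠ 0 → v 2 = 0 → 0 < aeval v (toPoly c))}

theorem vec_cases (x : Fin 3 → ℝ) (h0 : x 0 = 0) (h1 : x 1 = 0) (h2 : x 2 = 0) : x = 0 := by
  funext i
  fin_cases i <;> simp [h0, h1, h2]

theorem K0_part {d : ℕ} {c : E d} (h : c ∈ K0 d) (j : ℕ) (h0 : j ≠ 0) (h1 : j ≠ d)
    (x : Fin 3 → ℝ) : part j c x = 0 := by
  rw [part]
  apply Finset.sum_eq_zero
  intro s _
  split_ifs with h2
  · rw [h.1 s (by omega) (by omega), zero_mul]
  · rfl

theorem K0_subset {d : ℕ} (hd : d ≠ 0) : K0 d ⊆ U d := by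
  intro c hc x hx
  obtain ⟨e1, e2⟩ := sing_parts hd c x hx
  have hsum1 : ∑ j ∈ range (d + 1), (j : ℝ) * part j c x = d * part d c x := by
    rw [Finset.sum_eq_single d]
    · intro j _ hj
      rcases eq_or_ne j 0 with h0 | h0
      · simp [h0]
      · rw [K0_part hc j h0 hj, mul_zero]
    · simp
  rw [hsum1] at e2
  have hd' : (d : ℝ) ≠ 0 := by exact_mod_cast hd
  have hpd : part d c x = 0 := by
    rcases mul_eq_zero.1 e2 with h | h
    · exact absurd h hd'
    · exact h
  have hsum0 : ∑ j ∈ range (d + 1), part j c x = part 0 c x := by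
    rw [Finset.sum_eq_single 0]
    · intro j _ hj
      rcases eq_or_ne j d with h0 | h0
      · rw [h0, hpd]
      · rw [K0_part hc j hj h0]
    · simp
  rw [hsum0] at e1
  rw [part_top] at hpd
  have hx01 : (![x 0, x 1, 0] : Fin 3 → ℝ) = 0 := by
    by_contra hne
    have := hc.2.2 ![x 0, x 1, 0] hne (by simp)
    rw [hpd] at this
    exact lt_irrefl _ this
  have h0 : x 0 = 0 := by
    have := congrFun hx01 0
    simpa using this
  have h1 : x 1 = 0 := by
    have := congrFun hx01 1
    simpa using this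
  have h2 : x 2 = 0 := by
    rw [part_zero] at e1
    have h3 : sc 0 x = x 2 • ![0, 0, 1] := by
      funext i
      fin_cases i <;> simp [sc]
    rw [h3, aeval_smul (toPoly_homogeneous c)] at e1
    rcases mul_eq_zero.1 e1 with h | h
    · exact pow_eq_zero_iff hd |>.1 h
    · exact absurd h hc.2.1.ne
  exact vec_cases x h0 h1 h2

theorem toPoly_add {d : ℕ} (c c' : E d) : toPoly (c + c') = toPoly c + toPoly c' :=
  (toPolyL d).map_add c c'

theorem K0_convex (d : ℕ) : Convex ℝ (K0 d) := by
  intro c hc c' hc' a b ha hb hab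
  refine ⟨?_, ?_, ?_⟩
  · intro s h0 h1
    simp [hc.1 s h0 h1, hc'.1 s h0 h1]
  · rw [toPoly_add, toPoly_smul, toPoly_smul, map_add, map_smul, map_smul]
    have h1 := hc.2.1
    have h2 := hc'.2.1
    simp only [smul_eq_mul]
    rcases eq_or_lt_of_le ha with h | h
    · have : b = 1 := by linarith
      rw [← h, this]
      linarith
    · nlinarith
  · intro v hv hv2
    rw [toPoly_add, toPoly_smul, toPoly_smul, map_add, map_smul, map_smul]
    have h1 := hc.2.2 v hv hv2
    have h2 := hc'.2.2 v hv hv2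
    simp only [smul_eq_mul]
    rcases eq_or_lt_of_le ha with h | h
    · have : b = 1 := by linarith
      rw [← h, this]
      linarith
    · nlinarith

/-- the weights of the flow -/
noncomputable def wt (d : ℕ) (τ : ℝ) (j : ℕ) : ℝ :=
  if j = 0 ∨ d ≤ j then 1 else (1 - τ) / ((1 - τ) + τ * (j * (d - j)))

theorem denom_pos {d j : ℕ} (hj : ¬ (j = 0 ∨ d ≤ j)) {τ : ℝ} (h0 : 0 ≤ τ) (h1 : τ ≤ 1) :
    0 < (1 - τ) + τ * (j * (d - j)) := by
  push Not at hj
  have h2 : (1 : ℝ) ≤ j := by
    have := Nat.pos_of_ne_zero hj.1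
    exact_mod_cast this
  have h3 : (j : ℝ) + 1 ≤ d := by exact_mod_cast hj.2
  have h4 : (1 : ℝ) ≤ j * (d - j) := by nlinarith
  rcases eq_or_lt_of_le h0 with h | h
  · rw [← h]
    simp
  · have : 0 < τ * (j * (d - j)) := by positivity
    linarith

theorem wt_continuousOn (d j : ℕ) : ContinuousOn (fun τ => wt d τ j) (Set.Icc 0 1) := by
  unfold wt
  by_cases h : j = 0 ∨ d ≤ j
  · simp only [h, if_true]
    exact continuousOn_const
  · simp only [h, if_false]
    apply ContinuousOn.div
    · fun_prop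
    · fun_prop
    · intro τ hτ
      exact (denom_pos h hτ.1 hτ.2).ne'

theorem wt_zero (d j : ℕ) : wt d 0 j = 1 := by
  unfold wt
  split_ifs
  · rfl
  · simp

theorem wt_one {d j : ℕ} (h0 : j ≠ 0) (h1 : j < d) : wt d 1 j = 0 := by
  unfold wt
  rw [if_neg]
  · simp
  · push Not
    exact ⟨h0, h1⟩

/-- for τ strictly between 0 and 1 the weights are of the form κ/((j+α)(d+α-j)) -/
theorem wt_eq (d : ℕ) {τ : ℝ} (h0 : 0 < τ) (h1 : τ < 1) :
    ∃ α κ : ℝ, 0 < α ∧ κ ≠ 0 ∧ ∀ j ∈ range (d + 1), wt d τ j = κ / ((j + α) * (d + α - j)) := by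
  set D : ℝ := Real.sqrt ((d : ℝ) ^ 2 + 4 * ((1 - τ) / τ)) with hD
  have hq : 0 < (1 - τ) / τ := div_pos (by linarith) h0
  have hDsq : D ^ 2 = (d : ℝ) ^ 2 + 4 * ((1 - τ) / τ) := Real.sq_sqrt (by positivity)
  have hDd : (d : ℝ) < D := by
    apply Real.lt_sqrt_of_sq_lt
    linarith
  refine ⟨(D - d) / 2, (1 - τ) / τ, by linarith, hq.ne', ?_⟩
  intro j hj
  have hα : 0 < (D - d) / 2 := by linarith
  have hjd : j ≤ d := by
    have := Finset.mem_range.1 hj
    omega
  have hjd' : (j : ℝ) ≤ d := by exact_mod_cast hjd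
  have key : ((j : ℝ) + (D - d) / 2) * (d + (D - d) / 2 - j) = j * (d - j) + (1 - τ) / τ := by
    have : ((j : ℝ) + (D - d) / 2) * (d + (D - d) / 2 - j) =
        j * (d - j) + (D ^ 2 - (d : ℝ) ^ 2) / 4 := by ring
    rw [this, hDsq]
    ring
  rw [key]
  unfold wt
  split_ifs with h
  · have h3 : (j : ℝ) * (d - j) = 0 := by
      rcases h with h | h
      · simp [h]
      · have : j = d := le_antisymm hjd h
        simp [this]
    rw [h3, zero_add, div_self hq.ne']
  · have h4 := denom_pos h h0.le h1.le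
    have h5 : 0 ≤ (j : ℝ) * (d - j) := mul_nonneg (by positivity) (by linarith)
    have h6 : (j : ℝ) * (d - j) + (1 - τ) / τ ≠ 0 := by positivity
    rw [div_eq_div_iff h4.ne' h6]
    field_simp
    ring

theorem flow_mem {d : ℕ} (hd : Even d) (hd0 : d ≠ 0) {c : E d} (hc : Std c) {τ : ℝ} (h0 : 0 < τ)
    (h1 : τ < 1) : diag (wt d τ) c ∈ U d := by
  intro x hx
  obtain ⟨e1, e2⟩ := sing_parts hd0 _ x hx
  obtain ⟨α, κ, hα, hκ, hw⟩ := wt_eq d h0 h1
  by_contra hx0
  simp only [part_diag] at e1 e2
  -- the third coordinate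
  by_cases hx2 : x 2 = 0
  · -- only the top part survives
    have hp : ∀ j ∈ range (d + 1), j ≠ d → wt d τ j * part j c x = 0 := by
      intro j hj hjd
      have : part j c x = 0 := by
        rw [part]
        apply Finset.sum_eq_zero
        intro s _
        split_ifs with h
        · have h1 : s.1 2 ≠ 0 := by
            have := mem_idx.1 s.2
            omega
          simp [hx2, h1]
        · rfl
      rw [this, mul_zero]
    rw [Finset.sum_eq_single_of_mem d (by simp) hp] at e1
    have h3 : wt d τ d = 1 := by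
      unfold wt
      simp
    rw [h3, one_mul, part_top] at e1
    have h4 : (![x 0, x 1, 0] : Fin 3 → ℝ) = x := by
      funext i
      fin_cases i <;> simp [hx2]
    rw [h4] at e1
    have := hc.2.1 x hx0 hx2
    rw [e1] at this
    exact lt_irrefl _ this
  · by_cases hx01 : x 0 = 0 ∧ x 1 = 0
    · have hp : ∀ j ∈ range (d + 1), j ≠ 0 → wt d τ j * part j c x = 0 := by
        intro j hj hjd
        have : part j c x = 0 := by
          rw [part]
          apply Finset.sum_eq_zero
          intro s _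
          split_ifs with h
          · have h1 : s.1 0 ≠ 0 ∨ s.1 1 ≠ 0 := by omega
            rcases h1 with h1 | h1
            · simp [hx01.1, h1]
            · simp [hx01.2, h1]
          · rfl
        rw [this, mul_zero]
      rw [Finset.sum_eq_single_of_mem 0 (by simp) hp] at e1
      have h3 : wt d τ 0 = 1 := by
        unfold wt
        simp
      rw [h3, one_mul, part_zero] at e1
      have h3 : sc 0 x = x 2 • ![0, 0, 1] := by
        funext i
        fin_cases i <;> simp [sc]
      rw [h3, aeval_smul (toPoly_homogeneous c)] at e1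
      rcases mul_eq_zero.1 e1 with h | h
      · exact hx2 (pow_eq_zero_iff hd0 |>.1 h)
      · exact absurd h hc.1.ne
    · -- main case
      obtain ⟨t₀, ht₀0, ht₀⟩ := hc.2.2 ![x 0 / x 2, x 1 / x 2, 0] (by
        intro h
        apply hx01
        have h5 := congrFun h 0
        have h6 := congrFun h 1
        simp [hx2] at h5 h6
        exact ⟨h5, h6⟩) (by simp)
      have hval : ∀ s : ℝ, ∑ j ∈ range (d + 1), part j c x * s ^ j =
          x 2 ^ d * aeval (![0, 0, 1] + s • ![x 0 / x 2, x 1 / x 2, 0]) (toPoly c) := by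
        intro s
        rw [← aeval_sc, ← aeval_smul (toPoly_homogeneous c)]
        congr 2
        funext i
        fin_cases i
        · simp [sc]
          field_simp
        · simp [sc]
          field_simp
        · simp [sc]
      have hpow : 0 < x 2 ^ d := hd.pow_pos hx2
      have e1' : ∑ j ∈ range (d + 1), κ / ((j + α) * (d + α - j)) * part j c x = 0 := by
        rw [← e1]
        apply Finset.sum_congr rfl
        intro j hj
        rw [hw j hj]
      have e2' : ∑ j ∈ range (d + 1), j * (κ / ((j + α) * (d + α - j)) * part j c x) = 0 := by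
        rw [← e2]
        apply Finset.sum_congr rfl
        intro j hj
        rw [hw j hj]
      refine no_double d (fun j => part j c x) α hα t₀ ?_ ?_ κ hκ e1' e2'
      · intro s hs hs1
        show ∑ j ∈ range (d + 1), part j c x * s ^ j < 0
        rw [hval]
        exact mul_neg_of_pos_of_neg hpow ((ht₀ s hs).1 hs1)
      · intro s hs1
        show 0 < ∑ j ∈ range (d + 1), part j c x * s ^ j
        rw [hval]
        exact mul_pos hpow ((ht₀ s (ht₀0.trans hs1)).2 hs1)

theorem diag_wt_zero {d : ℕ} (c : E d) : diag (wt d 0) c = c := by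
  funext s
  rw [diag, wt_zero, one_mul]

theorem diag_wt_one_mem {d : ℕ} {c : E d} (hc : Std c) : diag (wt d 1) c ∈ K0 d := by
  have hpart : ∀ x : Fin 3 → ℝ, aeval x (toPoly (diag (wt d 1) c)) =
      ∑ j ∈ range (d + 1), wt d 1 j * part j c x := by
    intro x
    rw [sum_part]
    simp only [part_diag]
  have hw0 : wt d 1 0 = 1 := by
    unfold wt
    simp
  have hwd : wt d 1 d = 1 := by
    unfold wt
    simp
  refine ⟨?_, ?_, ?_⟩
  · intro s h0 h1
    have h2 := mem_idx.1 s.2
    rw [diag, wt_one h0 (by omega), zero_mul]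
  · have h1 : aeval ![0, 0, 1] (toPoly (diag (wt d 1) c)) =
        aeval (![0, 0, 1] : Fin 3 → ℝ) (toPoly c) := by
      rw [hpart, Finset.sum_eq_single_of_mem 0 (by simp)]
      · rw [hw0, one_mul, part_zero]
        congr 2
        funext i
        fin_cases i <;> simp [sc]
      · intro j hj hj0
        have : part j c ![0, 0, 1] = 0 := by
          rw [part]
          apply Finset.sum_eq_zero
          intro s _
          split_ifs with h
          · have h1 : s.1 0 ≠ 0 ∨ s.1 1 ≠ 0 := by omega
            rcases h1 with h1 | h1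
            · simp [h1]
            · simp [h1]
          · rfl
        rw [this, mul_zero]
    rw [h1]
    exact hc.1
  · intro v hv hv2
    have h1 : aeval v (toPoly (diag (wt d 1) c)) = aeval v (toPoly c) := by
      rw [hpart, Finset.sum_eq_single_of_mem d (by simp)]
      · rw [hwd, one_mul, part_top]
        congr 2
        funext i
        fin_cases i <;> simp [hv2]
      · intro j hj hjd
        have : part j c v = 0 := by
          rw [part]
          apply Finset.sum_eq_zero
          intro s _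
          split_ifs with h
          · have h1 : s.1 2 ≠ 0 := by
              have := mem_idx.1 s.2
              have := Finset.mem_range.1 hj
              omega
            simp [hv2, h1]
          · rfl
        rw [this, mul_zero]
    rw [h1]
    exact hc.2.1 v hv hv2

/-- a standard star-shaped form without real singular points is connected in U to its two-term
part -/
theorem flow {d : ℕ} (hd : Even d) (hd0 : d ≠ 0) {c : E d} (hc : Std c) (hU : c ∈ U d) :
    diag (wt d 1) c ∈ connectedComponentIn (U d) c := by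
  have hcont : ContinuousOn (fun τ : ℝ => diag (wt d τ) c) (Set.Icc 0 1) := by
    apply continuousOn_pi.2
    intro s
    exact (wt_continuousOn d _).mul continuousOn_const
  have hpre : IsPreconnected ((fun τ : ℝ => diag (wt d τ) c) '' Set.Icc 0 1) :=
    isPreconnected_Icc.image _ hcont
  have hsub : ((fun τ : ℝ => diag (wt d τ) c) '' Set.Icc 0 1) ⊆ U d := by
    rintro _ ⟨τ, hτ, rfl⟩
    rcases eq_or_lt_of_le hτ.1 with h | h
    · show diag (wt d τ) c ∈ U d
      rw [← h, diag_wt_zero]
      exact hU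
    · rcases eq_or_lt_of_le hτ.2 with h' | h'
      · show diag (wt d τ) c ∈ U d
        rw [h']
        exact K0_subset hd0 (diag_wt_one_mem hc)
      · exact flow_mem hd hd0 hc h h'
  have hc' : c ∈ (fun τ : ℝ => diag (wt d τ) c) '' Set.Icc 0 1 :=
    ⟨0, by simp, diag_wt_zero c⟩
  exact hpre.subset_connectedComponentIn hc' hsub ⟨1, by simp, rfl⟩

theorem K0_conn {d : ℕ} (hd0 : d ≠ 0) {c c' : E d} (hc : c ∈ K0 d) (hc' : c' ∈ K0 d) :
    c' ∈ connectedComponentIn (U d) c :=
  (K0_convex d).isPreconnected.subset_connectedComponentIn hc (K0_subset hd0) hc'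

end Pool.Agent.Helper5.RI
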