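import Mathlib
import Pool.Agent.Helper5.RI.Base
import Pool.Agent.Helper5.RI.Flow

/-!
Coefficients of families of forms; linear substitutions as maps of coefficient spaces.
-/

open MvPolynomial Finset

namespace Pool.Agent.Helper5.RI

/-- all coefficients of a family are in a given algebra of functions -/
def CoeffIn {T : Type*} (A : Subalgebra ℝ (T → ℝ)) (P : T → MvPolynomial (Fin 3) ℝ) : Prop :=
  ∀ m, (fun t => coeff m (P t)) ∈ A

theorem CoeffIn.const {T : Type*} (A : Subalgebra ℝ (T → ℝ)) (p : MvPolynomial (Fin 3) ℝ) :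
    CoeffIn A (fun _ => p) := fun m => A.algebraMap_mem (coeff m p)

theorem CoeffIn.mul {T : Type*} {A : Subalgebra ℝ (T → ℝ)} {P Q : T → MvPolynomial (Fin 3) ℝ}
    (hP : CoeffIn A P) (hQ : CoeffIn A Q) : CoeffIn A (fun t => P t * Q t) := by
  classical
  intro m
  have : (fun t => coeff m (P t * Q t)) = ∑ x ∈ antidiagonal m,
      (fun t => coeff x.1 (P t)) * (fun t => coeff x.2 (Q t)) := by
    funext t
    rw [coeff_mul]
    simp
  rw [this]
  exact A.sum_mem fun x _ => A.mul_mem (hP _) (hQ _)

theorem CoeffIn.sum {T ι : Type*} {A : Subalgebra ℝ (T → ℝ)} (s : Finset ι)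
    {P : ι → T → MvPolynomial (Fin 3) ℝ}
    (hP : ∀ i ∈ s, CoeffIn A (P i)) : CoeffIn A (fun t => ∑ i ∈ s, P i t) := by
  intro m
  have : (fun t => coeff m (∑ i ∈ s, P i t)) = ∑ i ∈ s, (fun t => coeff m (P i t)) := by
    funext t
    rw [coeff_sum]
    simp
  rw [this]
  exact A.sum_mem fun x hx => hP x hx m

theorem CoeffIn.pow {T : Type*} {A : Subalgebra ℝ (T → ℝ)} {P : T → MvPolynomial (Fin 3) ℝ}
    (hP : CoeffIn A P) (n : ℕ) : CoeffIn A (fun t => P t ^ n) := by
  induction n with
  | zero => simpa using CoeffIn.const A 1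
  | succ n ih =>
    simp only [pow_succ]
    exact ih.mul hP

theorem CoeffIn.prod {T ι : Type*} {A : Subalgebra ℝ (T → ℝ)} (s : Finset ι)
    {P : ι → T → MvPolynomial (Fin 3) ℝ}
    (hP : ∀ i ∈ s, CoeffIn A (P i)) : CoeffIn A (fun t => ∏ i ∈ s, P i t) := by
  classical
  induction s using Finset.induction_on with
  | empty => simpa using CoeffIn.const A 1
  | insert a s ha ih =>
    simp only [Finset.prod_insert ha]
    exact (hP a (Finset.mem_insert_self a s)).mul
      (ih fun i hi => hP i (Finset.mem_insert_of_mem hi))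

theorem CoeffIn.C {T : Type*} {A : Subalgebra ℝ (T → ℝ)} {f : T → ℝ} (hf : f ∈ A) :
    CoeffIn A (fun t => MvPolynomial.C (f t)) := by
  intro m
  by_cases h : m = 0
  · subst h
    simpa using hf
  · have : (fun t => coeff m (MvPolynomial.C (σ := Fin 3) (f t))) = fun _ => (0 : ℝ) := by
      funext t
      rw [coeff_C, if_neg (Ne.symm h)]
    rw [this]
    exact A.zero_mem

theorem CoeffIn.comp {T : Type*} {A : Subalgebra ℝ (T → ℝ)} {d : ℕ}
    {B : T → Matrix (Fin 3) (Fin 3) ℝ} {c : T → E d} (hB : ∀ i j, (fun t => B t i j) ∈ A)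
    (hc : ∀ s, (fun t => c t s) ∈ A) : CoeffIn A (fun t => comp (B t) (toPoly (c t))) := by
  have : (fun t => RI.comp (B t) (toPoly (c t))) = fun t => ∑ s : idx d,
      MvPolynomial.C (c t s) * ∏ i, (∑ j, MvPolynomial.C (B t i j) * X j) ^ s.1 i := by
    funext t
    rw [RI.comp, toPoly, map_sum]
    apply Finset.sum_congr rfl
    intro s _
    rw [aeval_monomial, Finsupp.prod_fintype _ _ (fun _ => pow_zero _)]
    rfl
  rw [this]
  apply CoeffIn.sum
  intro s _
  apply CoeffIn.mul
  · exact CoeffIn.C (hc s)
  · apply CoeffIn.prod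
    intro i _
    apply CoeffIn.pow
    apply CoeffIn.sum
    intro j _
    exact (CoeffIn.C (hB i j)).mul (CoeffIn.const A _)

/-- substitution on coefficient vectors -/
noncomputable def compE (d : ℕ) (B : Matrix (Fin 3) (Fin 3) ℝ) : E d →ₗ[ℝ] E d where
  toFun c := coefVec d (comp B (toPoly c))
  map_add' c c' := by
    funext s
    simp [coefVec, toPoly_add, comp]
  map_smul' r c := by
    funext s
    simp [coefVec, toPoly_smul, comp]

theorem toPoly_compE {d : ℕ} (B : Matrix (Fin 3) (Fin 3) ℝ) (c : E d) :
    toPoly (compE d B c) = comp B (toPoly c) :=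
  toPoly_coefVec (comp_homogeneous B (toPoly_homogeneous c))

theorem compE_compE {d : ℕ} (B B' : Matrix (Fin 3) (Fin 3) ℝ) (c : E d) :
    compE d B (compE d B' c) = compE d (B' * B) c := by
  rw [← coefVec_toPoly (compE d B (compE d B' c)), toPoly_compE, toPoly_compE, comp_comp,
    ← toPoly_compE, coefVec_toPoly]

theorem compE_one {d : ℕ} (c : E d) : compE d 1 c = c := by
  rw [← coefVec_toPoly (compE d 1 c), toPoly_compE, comp_one, coefVec_toPoly]

theorem act_eq_zero {K : Type*} [RCLike K] {B B' : Matrix (Fin 3) (Fin 3) ℝ} (hB : B' * B = 1)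
    {x : Fin 3 → K} (h : act B x = 0) : x = 0 := by
  have h1 : act B' (act B x) = 0 := by
    rw [h]
    funext i
    simp [act]
  rwa [act_act, hB, act_one] at h1

theorem compE_mem {d : ℕ} {B B' : Matrix (Fin 3) (Fin 3) ℝ} (hB : B * B' = 1) {c : E d}
    (hc : c ∈ U d) : compE d B c ∈ U d := by
  intro x hx
  rw [toPoly_compE, sing_comp_iff B B' hB] at hx
  exact act_eq_zero (mul_eq_one_comm.1 hB) (hc _ hx)

theorem compE_continuous (d : ℕ) (B : Matrix (Fin 3) (Fin 3) ℝ) : Continuous (compE d B) :=
  LinearMap.continuous_of_finiteDimensional _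

/-- connectedness relation -/
def Rel (d : ℕ) (a b : E d) : Prop := b ∈ connectedComponentIn (U d) a

theorem Rel.mem_left {d : ℕ} {a b : E d} (h : Rel d a b) : a ∈ U d := by
  by_contra h1
  rw [Rel, connectedComponentIn_eq_empty h1] at h
  exact h

theorem Rel.mem_right {d : ℕ} {a b : E d} (h : Rel d a b) : b ∈ U d :=
  connectedComponentIn_subset _ _ h

theorem Rel.symm {d : ℕ} {a b : E d} (h : Rel d a b) : Rel d b a := by
  have := connectedComponentIn_eq h
  rw [Rel, ← this]
  exact mem_connectedComponentIn h.mem_left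

theorem Rel.trans {d : ℕ} {a b c : E d} (h : Rel d a b) (h' : Rel d b c) : Rel d a c := by
  have := connectedComponentIn_eq h
  rw [Rel, this]
  exact h'

theorem Rel.refl {d : ℕ} {a : E d} (h : a ∈ U d) : Rel d a a := mem_connectedComponentIn h

theorem Rel.compE {d : ℕ} {a b : E d} (h : Rel d a b) {B B' : Matrix (Fin 3) (Fin 3) ℝ}
    (hB : B * B' = 1) : Rel d (compE d B a) (compE d B b) := by
  have hpre : IsPreconnected (RI.compE d B '' connectedComponentIn (U d) a) :=
    isPreconnected_connectedComponentIn.image _ (compE_continuous d B).continuousOn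
  have hsub : RI.compE d B '' connectedComponentIn (U d) a ⊆ U d := by
    rintro _ ⟨c, hc, rfl⟩
    exact compE_mem hB (connectedComponentIn_subset _ _ hc)
  exact hpre.subset_connectedComponentIn ⟨a, mem_connectedComponentIn h.mem_left, rfl⟩ hsub
    ⟨b, h, rfl⟩

/-- continuous functions as a subalgebra -/
def contAlg (T : Type*) [TopologicalSpace T] : Subalgebra ℝ (T → ℝ) where
  carrier := {f | Continuous f}
  mul_mem' := fun h h' => Continuous.mul h h'
  add_mem' := fun h h' => Continuous.add h h'
  algebraMap_mem' := fun _ => continuous_const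

theorem mem_contAlg {T : Type*} [TopologicalSpace T] {f : T → ℝ} :
    f ∈ contAlg T ↔ Continuous f := Iff.rfl

/-- a path of invertible matrices -/
theorem rel_path {d : ℕ} {c : E d} (hc : c ∈ U d) (B B' : ℝ → Matrix (Fin 3) (Fin 3) ℝ)
    (hB : ∀ i j, Continuous fun t => B t i j) (hinv : ∀ t ∈ Set.Icc (0 : ℝ) 1, B t * B' t = 1) :
    Rel d (compE d (B 0) c) (compE d (B 1) c) := by
  have hcont : Continuous fun t => compE d (B t) c := by
    apply continuous_pi
    intro s
    exact CoeffIn.comp (A := contAlg ℝ) (c := fun _ => c) hB (fun s => continuous_const) s.1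
  have hpre : IsPreconnected ((fun t => compE d (B t) c) '' Set.Icc (0 : ℝ) 1) :=
    isPreconnected_Icc.image _ hcont.continuousOn
  have hsub : (fun t => compE d (B t) c) '' Set.Icc (0 : ℝ) 1 ⊆ U d := by
    rintro _ ⟨t, ht, rfl⟩
    exact compE_mem (hinv t ht) hc
  exact hpre.subset_connectedComponentIn ⟨0, by simp, rfl⟩ hsub ⟨1, by simp, rfl⟩

/-- the standard form X^d + Y^d - Z^d -/
noncomputable def stPoly (d : ℕ) : MvPolynomial (Fin 3) ℝ := X 0 ^ d + X 1 ^ d - X 2 ^ d

noncomputable def st (d : ℕ) : E d := coefVec d (stPoly d)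

theorem stPoly_homogeneous (d : ℕ) : (stPoly d).IsHomogeneous d :=
  ((isHomogeneous_X_pow 0 d).add (isHomogeneous_X_pow 1 d)).sub (isHomogeneous_X_pow 2 d)

theorem toPoly_st (d : ℕ) : toPoly (st d) = stPoly d := toPoly_coefVec (stPoly_homogeneous d)

theorem st_mem {d : ℕ} (hd : Even d) (hd0 : d ≠ 0) : st d ∈ K0 d := by
  classical
  refine ⟨?_, ?_, ?_⟩
  · intro s h0 h1
    show coeff s.1 (stPoly d) = 0
    have e : ∀ i, coeff s.1 (X i ^ d : MvPolynomial (Fin 3) ℝ) = 0 := by
      intro i
      rw [coeff_X_pow, if_neg]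
      intro h
      rw [← h] at h0 h1
      fin_cases i <;> simp at h0 h1
    rw [stPoly, coeff_sub, coeff_add, e, e, e]
    ring
  · rw [toPoly_st, stPoly]
    simp [hd0]
  · intro v hv hv2
    rw [toPoly_st, stPoly]
    simp only [map_sub, map_add, map_pow, aeval_X, hv2]
    rw [zero_pow hd0, sub_zero]
    have h0 : v 0 ≠ 0 ∨ v 1 ≠ 0 := by
      by_contra h
      push Not at h
      exact hv (vec_cases v h.1 h.2 hv2)
    rcases h0 with h | h
    · have := hd.pow_pos h
      have := hd.pow_nonneg (v 1)
      linarith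
    · have := hd.pow_pos h
      have := hd.pow_nonneg (v 0)
      linarith

/-- every invertible substitution of the standard form is connected to it -/
theorem rel_gl {d : ℕ} (hd : Even d) (hd0 : d ≠ 0) (M : Matrix (Fin 3) (Fin 3) ℝ)
    (hM : M.det ≠ 0) : Rel d (st d) (compE d M (st d)) := by
  have hst : st d ∈ U d := K0_subset hd0 (st_mem hd hd0)
  have hmulinv : ∀ N : Matrix (Fin 3) (Fin 3) ℝ, N.det ≠ 0 → N * N⁻¹ = 1 := by
    intro N hN
    exact Matrix.mul_nonsing_inv N (isUnit_iff_ne_zero.2 hN)
  refine Matrix.diagonal_transvection_induction_of_det_ne_zero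
    (fun M => Rel d (st d) (compE d M (st d))) M hM ?_ ?_ ?_
  · intro D hD
    have hD' : ∀ i, D i ≠ 0 := by
      rw [Matrix.det_diagonal] at hD
      intro i
      exact Finset.prod_ne_zero_iff.1 hD i (Finset.mem_univ i)
    -- replace D by its absolute value
    have habs : compE d (Matrix.diagonal D) (st d) =
        compE d (Matrix.diagonal fun i => |D i|) (st d) := by
      rw [← coefVec_toPoly (compE d (Matrix.diagonal D) (st d)), toPoly_compE, toPoly_st,
        ← coefVec_toPoly (compE d (Matrix.diagonal fun i => |D i|) (st d)), toPoly_compE,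
        toPoly_st]
      congr 1
      have e : ∀ D : Fin 3 → ℝ, comp (Matrix.diagonal D) (stPoly d) =
          C (D 0 ^ d) * X 0 ^ d + C (D 1 ^ d) * X 1 ^ d - C (D 2 ^ d) * X 2 ^ d := by
        intro D
        rw [comp, stPoly]
        simp [Fin.sum_univ_three, Matrix.diagonal_apply, mul_pow]
      rw [e, e, hd.pow_abs, hd.pow_abs, hd.pow_abs]
    rw [habs]
    have h1 := rel_path hst (fun t => Matrix.diagonal fun i => (1 - t) * 1 + t * |D i|)
      (fun t => (Matrix.diagonal fun i => (1 - t) * 1 + t * |D i|)⁻¹) (by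
        intro i j
        by_cases h : i = j
        · subst h
          simp only [Matrix.diagonal_apply_eq]
          fun_prop
        · simp only [Matrix.diagonal_apply_ne _ h]
          exact continuous_const) (by
        intro t ht
        apply hmulinv
        rw [Matrix.det_diagonal]
        apply (Finset.prod_pos _).ne'
        intro i _
        have := abs_pos.2 (hD' i)
        rcases eq_or_lt_of_le ht.1 with h | h
        · rw [← h]
          simp
        · have h1 : 0 ≤ 1 - t := by linarith [ht.2]
          positivity)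
    simp only [sub_zero, mul_one, zero_mul, add_zero, sub_self, zero_add, one_mul] at h1
    rw [Matrix.diagonal_one, compE_one] at h1
    exact h1
  · intro T
    have h1 := rel_path hst (fun t => Matrix.transvection T.i T.j (t * T.c))
      (fun t => Matrix.transvection T.i T.j (- (t * T.c))) (by
        intro i j
        simp only [Matrix.transvection, Matrix.add_apply, Matrix.single_apply]
        split_ifs
        · fun_prop
        · fun_prop) (by
        intro t _
        rw [Matrix.transvection_mul_transvection_same _ _ T.hij, add_neg_cancel,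
          Matrix.transvection_zero])
    simp only [zero_mul, one_mul, Matrix.transvection_zero, compE_one] at h1
    exact h1
  · intro A B hA hB h1 h2
    show Rel d (st d) (compE d (A * B) (st d))
    rw [← compE_compE]
    exact h2.trans (h1.compE (hmulinv B hB))

end Pool.Agent.Helper5.RI
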