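import Mathlib

/-!
Avoiding a set of codimension two: paths in an open set U of a normed space can be pushed off a set B
all of whose cones have dense complement.
-/

namespace Pool.Agent.Helper5.RI

variable {V : Type*} [NormedAddCommGroup V] [NormedSpace ℝ V]

/-- the cone over B with apex a -/
def Cone (B : Set V) (a : V) : Set V := {b | ∃ y ∈ B, ∃ τ : ℝ, b = a + τ • (y - a)}

theorem subset_cone (B : Set V) (a : V) : B ⊆ Cone B a := by
  intro y hy
  exact ⟨y, hy, 1, by simp⟩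

theorem segment_avoid {B : Set V} {a b : V} (ha : a ∉ B) (hb : b ∉ Cone B a) :
    ∀ z ∈ segment ℝ a b, z ∉ B := by
  rintro z hz hzB
  rw [segment_eq_image'] at hz
  obtain ⟨s, hs, rfl⟩ := hz
  rcases eq_or_ne s 0 with h | h
  · subst h
    simp at hzB
    exact ha hzB
  · apply hb
    refine ⟨_, hzB, s⁻¹, ?_⟩
    rw [add_sub_cancel_left, smul_smul, inv_mul_cancel₀ h, one_smul]
    abel

theorem joined_convex {U B W : Set V} (hW : Convex ℝ W) (hWo : IsOpen W) (hWU : W ⊆ U)
    (hB : ∀ a a' : V, Dense (Cone B a ∪ Cone B a')ᶜ) {a a' : V} (ha : a ∈ W) (ha' : a' ∈ W)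
    (haB : a ∉ B) (haB' : a' ∉ B) : JoinedIn (U \ B) a a' := by
  obtain ⟨b, hbW, hb⟩ := (hB a a').inter_open_nonempty W hWo ⟨a, ha⟩
  rw [Set.mem_compl_iff, Set.mem_union, not_or] at hb
  have h1 : JoinedIn (U \ B) a b := by
    apply JoinedIn.of_segment_subset
    intro z hz
    exact ⟨hWU (hW.segment_subset ha hbW hz), segment_avoid haB hb.1 z hz⟩
  have h2 : JoinedIn (U \ B) a' b := by
    apply JoinedIn.of_segment_subset
    intro z hz
    exact ⟨hWU (hW.segment_subset ha' hbW hz), segment_avoid haB' hb.2 z hz⟩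
  exact h1.trans h2.symm

theorem joined_of_preconnected {U B S : Set V} (hU : IsOpen U)
    (hB : ∀ a a' : V, Dense (Cone B a ∪ Cone B a')ᶜ) (hS : IsPreconnected S) (hSU : S ⊆ U)
    {c c' : V} (hc : c ∈ S) (hc' : c' ∈ S) (hcB : c ∉ B) (hcB' : c' ∉ B) :
    JoinedIn (U \ B) c c' := by
  have hdense : ∀ W : Set V, IsOpen W → W.Nonempty → ∃ b ∈ W, b ∉ B := by
    intro W hW hne
    obtain ⟨b, hbW, hb⟩ := (hB 0 0).inter_open_nonempty W hW hne
    refine ⟨b, hbW, fun h => hb (Or.inl (subset_cone B 0 h))⟩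
  let Near : V → V → Prop := fun x a => a ∉ B ∧ ∃ r > 0, Metric.ball x r ⊆ U ∧ a ∈ Metric.ball x r
  let P : V → V → Prop := fun x y => ∀ a b, Near x a → Near y b → JoinedIn (U \ B) a b
  have hball : ∀ x ∈ S, ∃ r > 0, Metric.ball x r ⊆ U := fun x hx =>
    Metric.isOpen_iff.1 hU x (hSU hx)
  have key : P c c' := by
    apply hS.induction₂ P ?_ ?_ ?_ hc hc'
    · intro x hx
      obtain ⟨r, hr, hrU⟩ := hball x hx
      have hev : ∀ᶠ y in nhds x, y ∈ Metric.ball x r := Metric.ball_mem_nhds x hr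
      filter_upwards [nhdsWithin_le_nhds hev] with y hy
      rintro a b ⟨haB, r1, hr1, hr1U, ha⟩ ⟨hbB, r2, hr2, hr2U, hb⟩
      obtain ⟨a', ha', haB'⟩ := hdense (Metric.ball x r ∩ Metric.ball x r1)
        (Metric.isOpen_ball.inter Metric.isOpen_ball)
        ⟨x, Metric.mem_ball_self hr, Metric.mem_ball_self hr1⟩
      obtain ⟨b', hb', hbB'⟩ := hdense (Metric.ball x r ∩ Metric.ball y r2)
        (Metric.isOpen_ball.inter Metric.isOpen_ball)
        ⟨y, hy, Metric.mem_ball_self hr2⟩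
      have j1 : JoinedIn (U \ B) a a' := joined_convex (convex_ball x r1) Metric.isOpen_ball hr1U hB
        ha ha'.2 haB haB'
      have j2 : JoinedIn (U \ B) a' b' := joined_convex (convex_ball x r) Metric.isOpen_ball hrU hB
        ha'.1 hb'.1 haB' hbB'
      have j3 : JoinedIn (U \ B) b' b := joined_convex (convex_ball y r2) Metric.isOpen_ball hr2U hB
        hb'.2 hb hbB' hbB
      exact (j1.trans j2).trans j3
    · intro x y z hx hy hz hxy hyz a b ha hb
      obtain ⟨r, hr, hrU⟩ := hball y hy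
      obtain ⟨b', hb', hbB'⟩ := hdense (Metric.ball y r) Metric.isOpen_ball
        ⟨y, Metric.mem_ball_self hr⟩
      have hn : Near y b' := ⟨hbB', r, hr, hrU, hb'⟩
      exact (hxy a b' ha hn).trans (hyz b' b hn hb)
    · intro x y hx hy hxy a b ha hb
      exact (hxy b a hb ha).symm
  obtain ⟨r, hr, hrU⟩ := hball c hc
  obtain ⟨r', hr', hrU'⟩ := hball c' hc'
  exact key c c' ⟨hcB, r, hr, hrU, Metric.mem_ball_self hr⟩
    ⟨hcB', r', hr', hrU', Metric.mem_ball_self hr'⟩

end Pool.Agent.Helper5.RI
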