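import Mathlib
import Pool.Agent.Helper5.RI.Base
import Pool.Agent.Helper5.RI.Flow
import Pool.Agent.Helper5.RI.Comp
import Pool.Agent.Helper5.RI.Generic

/-!
Forms with a nonreal singular point have real codimension two.
-/

open MvPolynomial Finset

namespace Pool.Agent.Helper5.RI

/-- the point (1, i, 0) -/
noncomputable def z0 : Fin 3 → ℂ := ![1, Complex.I, 0]

/-- the three partial derivatives at (1, i, 0) -/
noncomputable def L (d : ℕ) : E d →ₗ[ℝ] (Fin 3 → ℂ) where
  toFun c := fun i => aeval z0 (pderiv i (toPoly c))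
  map_add' c c' := by
    funext i
    simp [toPoly_add]
  map_smul' r c := by
    funext i
    simp [toPoly_smul]

theorem mem_ker_L {d : ℕ} {c : E d} : c ∈ LinearMap.ker (L d) ↔ Sing (toPoly c) z0 := by
  rw [LinearMap.mem_ker]
  constructor
  · intro h i
    exact congrFun h i
  · intro h
    funext i
    exact h i

theorem L_surj (n : ℕ) : Function.Surjective (L (n + 3)) := by
  intro w
  let γ : ℝ := (w 1).im / 2
  let α : ℝ := ((w 0).re + (n + 1) * γ) / (n + 3)
  let δ : ℝ := ((w 0).im - (n + 2) * (w 1).re) / (2 * n + 6)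
  let β : ℝ := (w 1).re + 3 * δ
  let F : MvPolynomial (Fin 3) ℝ := C α * X 0 ^ (n + 3) + C β * (X 0 ^ (n + 2) * X 1) +
    C γ * (X 0 ^ (n + 1) * X 1 ^ 2) + C δ * (X 0 ^ n * X 1 ^ 3) +
    C (w 2).re * (X 0 ^ (n + 2) * X 2) + C (w 2).im * (X 0 ^ (n + 1) * (X 1 * X 2))
  have hF : F.IsHomogeneous (n + 3) := by
    have hX : ∀ i : Fin 3, ∀ k : ℕ, (X i ^ k : MvPolynomial (Fin 3) ℝ).IsHomogeneous k :=
      fun i k => isHomogeneous_X_pow i k
    have hX1 : ∀ i : Fin 3, (X i : MvPolynomial (Fin 3) ℝ).IsHomogeneous 1 :=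
      fun i => isHomogeneous_X ℝ i
    refine (((((?_ : IsHomogeneous _ _).add ?_).add ?_).add ?_).add ?_).add ?_
    · exact (hX 0 (n + 3)).C_mul α
    · exact ((hX 0 (n + 2)).mul (hX1 1)).C_mul β
    · exact ((hX 0 (n + 1)).mul (hX 1 2)).C_mul γ
    · exact ((hX 0 n).mul (hX 1 3)).C_mul δ
    · exact ((hX 0 (n + 2)).mul (hX1 2)).C_mul _
    · exact ((hX 0 (n + 1)).mul ((hX1 1).mul (hX1 2))).C_mul _
  refine ⟨coefVec (n + 3) F, ?_⟩
  have hz0 : z0 0 = 1 := rfl
  have hz1 : z0 1 = Complex.I := rfl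
  have hz2 : z0 2 = 0 := rfl
  have hI3 : Complex.I ^ 3 = -Complex.I := by
    rw [pow_succ, Complex.I_sq]
    ring
  have hn3 : (n : ℝ) + 3 ≠ 0 := by positivity
  have hn6 : 2 * (n : ℝ) + 6 ≠ 0 := by positivity
  funext i
  show aeval z0 (pderiv i (toPoly (coefVec (n + 3) F))) = w i
  rw [toPoly_coefVec hF]
  have hα : α * (n + 3) - (n + 1) * γ = (w 0).re := by
    simp only [α]
    field_simp
    ring
  have hβ : (n + 2) * β - n * δ = (w 0).im := by
    simp only [β, δ]
    field_simp
    ring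
  fin_cases i
  · simp only [F, map_add, pderiv_mul, pderiv_pow, pderiv_X_self, Fin.zero_eta]
    have e1 : pderiv (0 : Fin 3) (X 1 : MvPolynomial (Fin 3) ℝ) = 0 := pderiv_X_of_ne (by decide)
    have e2 : pderiv (0 : Fin 3) (X 2 : MvPolynomial (Fin 3) ℝ) = 0 := pderiv_X_of_ne (by decide)
    simp only [e1, e2, mul_zero, zero_mul, add_zero, zero_add, mul_one]
    simp only [map_mul, map_add, map_pow, aeval_X, map_smul, hz0, hz1, hz2, map_natCast,
      one_pow, mul_one, one_mul, mul_zero, add_zero]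
    apply Complex.ext
    · simp
      linarith
    · simp
      linarith
  · have e1 : pderiv (1 : Fin 3) (X 0 : MvPolynomial (Fin 3) ℝ) = 0 := pderiv_X_of_ne (by decide)
    have e2 : pderiv (1 : Fin 3) (X 2 : MvPolynomial (Fin 3) ℝ) = 0 := pderiv_X_of_ne (by decide)
    have e3 : pderiv (1 : Fin 3) (X 1 : MvPolynomial (Fin 3) ℝ) = 1 := pderiv_X_self 1
    have hγ : 2 * γ = (w 1).im := by
      simp only [γ]
      ring
    have hδ : β - 3 * δ = (w 1).re := by
      simp only [β]
      ring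
    show aeval z0 (pderiv 1 F) = w 1
    simp only [F, map_add, pderiv_mul, pderiv_pow, pderiv_C, e1, e2, e3]
    simp only [mul_zero, zero_mul, add_zero, zero_add, mul_one]
    simp only [map_mul, map_add, map_pow, aeval_X, hz0, hz1, hz2, map_natCast,
      one_pow, mul_one, one_mul, mul_zero, add_zero]
    apply Complex.ext
    · simp
      linarith
    · simp
      linarith
  · have e1 : pderiv (2 : Fin 3) (X 0 : MvPolynomial (Fin 3) ℝ) = 0 := pderiv_X_of_ne (by decide)
    have e2 : pderiv (2 : Fin 3) (X 1 : MvPolynomial (Fin 3) ℝ) = 0 := pderiv_X_of_ne (by decide)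
    have e3 : pderiv (2 : Fin 3) (X 2 : MvPolynomial (Fin 3) ℝ) = 1 := pderiv_X_self 2
    show aeval z0 (pderiv 2 F) = w 2
    simp only [F, map_add, pderiv_mul, pderiv_pow, pderiv_C, e1, e2, e3]
    simp only [mul_zero, zero_mul, add_zero, zero_add, mul_one]
    simp only [map_mul, map_add, map_pow, aeval_X, hz0, hz1, hz2, map_natCast,
      one_pow, mul_one, one_mul, mul_zero, add_zero]
    apply Complex.ext
    · simp
    · simp

theorem finrank_ker (n : ℕ) :
    Module.finrank ℝ (LinearMap.ker (L (n + 3))) + 6 = Module.finrank ℝ (E (n + 3)) := by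
  have h1 := LinearMap.finrank_range_add_finrank_ker (L (n + 3))
  rw [LinearMap.range_eq_top.2 (L_surj n), finrank_top] at h1
  have h2 : Module.finrank ℝ (Fin 3 → ℂ) = 6 := by
    rw [Module.finrank_pi_fintype]
    simp [Complex.finrank_real_complex]
  omega

/-- the substitutions x_i, a x_i + b x_j, p x_i + q x_j + x_k -/
def N (i j k : Fin 3) (v : Fin 4 → ℝ) : Matrix (Fin 3) (Fin 3) ℝ :=
  ![fun l => if l = i then 1 else 0,
    fun l => v 0 * (if l = i then 1 else 0) + v 1 * (if l = j then 1 else 0),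
    fun l => v 2 * (if l = i then 1 else 0) + v 3 * (if l = j then 1 else 0) +
      (if l = k then 1 else 0)]

/-- forms with a nonreal singular point -/
def Bad (d : ℕ) : Set (E d) := {c | ∃ z : Fin 3 → ℂ, Sing (toPoly c) z ∧
  ¬ ∃ (r : ℂ) (v : Fin 3 → ℝ), z = fun i => r * (v i : ℂ)}

theorem aeval_add_smul_smul {K : Type*} [RCLike K] {d : ℕ} {F : MvPolynomial (Fin 3) ℝ}
    (h : F.IsHomogeneous d) {r : K} (hr : r ≠ 0) {x : Fin 3 → K} (hs : Sing F (r • x)) :
    Sing F x := by
  rw [sing_iff] at hs ⊢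
  intro w
  have h1 := hs (r • w)
  have h2 : (fun t : K => aeval (r • x + t • r • w) F) =
      fun t : K => r ^ d * aeval (x + t • w) F := by
    funext t
    rw [smul_comm t r w, ← smul_add, aeval_smul h]
  rw [h2] at h1
  have h3 := h1.const_mul ((r ^ d)⁻¹)
  rw [mul_zero] at h3
  have h4 : (fun t : K => (r ^ d)⁻¹ * (r ^ d * aeval (x + t • w) F)) =
      fun t : K => aeval (x + t • w) F := by
    funext t
    rw [← mul_assoc, inv_mul_cancel₀ (pow_ne_zero d hr), one_mul]
  rw [h4] at h3
  exact h3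

theorem third (i j : Fin 3) (h : i ≠ j) :
    ∃ k : Fin 3, k ≠ i ∧ k ≠ j ∧ ∀ l : Fin 3, l = i ∨ l = j ∨ l = k := by
  decide +revert

/-- a form with a nonreal singular point is in one of the charts -/
theorem bad_chart {d : ℕ} {c : E d} (hc : c ∈ Bad d) :
    ∃ (i j k : Fin 3) (v : Fin 4 → ℝ), ∃ c' ∈ LinearMap.ker (L d), c = compE d (N i j k v) c' := by
  obtain ⟨z, hz, hreal⟩ := hc
  -- a nonzero coordinate
  have hz0 : ∃ i, z i ≠ 0 := by
    by_contra h
    push Not at h
    exact hreal ⟨0, 0, by funext i; simp [h i]⟩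
  obtain ⟨i, hi⟩ := hz0
  -- normalise
  let u : Fin 3 → ℂ := fun l => z l / z i
  have hu : z = z i • u := by
    funext l
    simp [u]
    field_simp
  have hui : u i = 1 := div_self hi
  have hus : Sing (toPoly c) u := by
    rw [hu] at hz
    exact aeval_add_smul_smul (toPoly_homogeneous c) hi hz
  have hj : ∃ j, (u j).im ≠ 0 := by
    by_contra h
    push Not at h
    apply hreal
    refine ⟨z i, fun l => (u l).re, ?_⟩
    funext l
    have h1 : ((u l).re : ℂ) = u l := by
      apply Complex.ext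
      · simp
      · simp [h l]
    rw [h1]
    simp [u]
    field_simp
  obtain ⟨j, hj⟩ := hj
  have hij : i ≠ j := by
    rintro rfl
    rw [hui] at hj
    simp at hj
  obtain ⟨k, hki, hkj, -⟩ := third i j hij
  let G : Matrix (Fin 3) (Fin 3) ℝ := fun l m =>
    if m = 0 then (u l).re else if m = 1 then (u l).im else if l = k then 1 else 0
  let v : Fin 4 → ℝ := ![-(u j).re / (u j).im, 1 / (u j).im,
    (u k).im / (u j).im * (u j).re - (u k).re, -(u k).im / (u j).im]
  have hG : act G z0 = u := by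
    funext l
    simp only [act, Fin.sum_univ_three, z0, G]
    simp
  have hNG : N i j k v * G = 1 := by
    have e0 : ∀ m, (N i j k v * G) 0 m = G i m := by
      intro m
      simp [Matrix.mul_apply, N, ite_mul]
    have e1 : ∀ m, (N i j k v * G) 1 m = v 0 * G i m + v 1 * G j m := by
      intro m
      simp [Matrix.mul_apply, N, add_mul, Finset.sum_add_distrib, ite_mul]
    have e2 : ∀ m, (N i j k v * G) 2 m = v 2 * G i m + v 3 * G j m + G k m := by
      intro m
      simp [Matrix.mul_apply, N, add_mul, Finset.sum_add_distrib, ite_mul]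
    have hik : i ≠ k := fun h => hki h.symm
    have hjk : j ≠ k := fun h => hkj h.symm
    ext r m
    fin_cases r
    · show (N i j k v * G) 0 m = (1 : Matrix (Fin 3) (Fin 3) ℝ) 0 m
      rw [e0]
      fin_cases m <;> simp [G, hui, hik]
      rfl
    · show (N i j k v * G) 1 m = (1 : Matrix (Fin 3) (Fin 3) ℝ) 1 m
      rw [e1]
      fin_cases m
      · simp [G, hui, v]
        field_simp
        ring
      · simp [G, hui, v, hj]
        rfl
      · simp [G, hik, hjk]
    · show (N i j k v * G) 2 m = (1 : Matrix (Fin 3) (Fin 3) ℝ) 2 m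
      rw [e2]
      fin_cases m
      · simp [G, hui, v]
        field_simp
        ring
      · simp [G, hui, v]
        field_simp
        ring
      · simp [G, hik, hjk]
        rfl
  have hGN : G * N i j k v = 1 := mul_eq_one_comm.1 hNG
  refine ⟨i, j, k, v, compE d G c, ?_, ?_⟩
  · rw [mem_ker_L, toPoly_compE]
    apply sing_comp
    rw [hG]
    exact hus
  · rw [compE_compE, hGN, compE_one]

/-- smooth functions as a subalgebra -/
def smoothAlg (T : Type*) [NormedAddCommGroup T] [NormedSpace ℝ T] : Subalgebra ℝ (T → ℝ) where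
  carrier := {f | ContDiff ℝ 1 f}
  mul_mem' := by
    intro f g hf hg
    exact ContDiff.mul (show ContDiff ℝ 1 f from hf) (show ContDiff ℝ 1 g from hg)
  add_mem' := by
    intro f g hf hg
    exact ContDiff.add (show ContDiff ℝ 1 f from hf) (show ContDiff ℝ 1 g from hg)
  algebraMap_mem' := by
    intro r
    show ContDiff ℝ 1 (fun _ : T => r)
    exact contDiff_const

/-- parameter space -/
abbrev Par (d : ℕ) : Type := (LinearMap.ker (L d)) × (Fin 4 → ℝ) × ℝ

/-- parametrisation of a cone over one chart -/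
noncomputable def Psi (d : ℕ) (i j k : Fin 3) (a : E d) (t : Par d) : E d :=
  a + t.2.2 • (compE d (N i j k t.2.1) (t.1 : E d) - a)

theorem Psi_contDiff (d : ℕ) (i j k : Fin 3) (a : E d) : ContDiff ℝ 1 (Psi d i j k a) := by
  have h1 : ∀ l m : Fin 3, (fun t : Par d => N i j k t.2.1 l m) ∈ smoothAlg (Par d) := by
    intro l m
    show ContDiff ℝ 1 (fun t : Par d => N i j k t.2.1 l m)
    have hv : ∀ r : Fin 4, ContDiff ℝ 1 (fun t : Par d => t.2.1 r) := by
      intro r
      exact (contDiff_apply ℝ ℝ r).comp (contDiff_fst.comp contDiff_snd)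
    fin_cases l
    · exact contDiff_const
    · exact ((hv 0).mul contDiff_const).add ((hv 1).mul contDiff_const)
    · exact (((hv 2).mul contDiff_const).add ((hv 3).mul contDiff_const)).add contDiff_const
  have h2 : ∀ s : idx d, (fun t : Par d => (t.1 : E d) s) ∈ smoothAlg (Par d) := by
    intro s
    show ContDiff ℝ 1 (fun t : Par d => (t.1 : E d) s)
    have h3 : ContDiff ℝ 1 (fun t : Par d => (LinearMap.ker (L d)).subtypeL t.1) :=
      (ContinuousLinearMap.contDiff _).comp contDiff_fst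
    exact (contDiff_apply ℝ ℝ s).comp h3
  rw [contDiff_pi]
  intro s
  have h3 : ContDiff ℝ 1 (fun t : Par d => coeff s.1 (comp (N i j k t.2.1) (toPoly (t.1 : E d)))) :=
    CoeffIn.comp (A := smoothAlg (Par d)) h1 h2 s.1
  have h4 : ContDiff ℝ 1 (fun t : Par d => t.2.2) := contDiff_snd.comp contDiff_snd
  exact contDiff_const.add (h4.mul (h3.sub contDiff_const))

theorem finrank_par (n : ℕ) : Module.finrank ℝ (Par (n + 3)) < Module.finrank ℝ (E (n + 3)) := by
  have h := finrank_ker n
  have h1 : Module.finrank ℝ (Par (n + 3)) =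
      Module.finrank ℝ (LinearMap.ker (L (n + 3))) + 5 := by
    rw [Module.finrank_prod, Module.finrank_prod]
    simp
  omega

theorem cone_subset {d : ℕ} (a : E d) :
    Cone (Bad d) a ⊆ ⋃ p : Fin 3 × Fin 3 × Fin 3, Set.range (Psi d p.1 p.2.1 p.2.2 a) := by
  rintro b ⟨y, hy, τ, rfl⟩
  obtain ⟨i, j, k, v, c', hc', rfl⟩ := bad_chart hy
  rw [Set.mem_iUnion]
  exact ⟨(i, j, k), (⟨c', hc'⟩, v, τ), rfl⟩

theorem dense_cones (n : ℕ) (a a' : E (n + 3)) :
    Dense (Cone (Bad (n + 3)) a ∪ Cone (Bad (n + 3)) a')ᶜ := by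
  apply dense_compl_of_dimH_lt_finrank
  have h1 : ∀ a : E (n + 3), dimH (Cone (Bad (n + 3)) a) ≤
      (Module.finrank ℝ (Par (n + 3)) : ENNReal) := by
    intro a
    refine (dimH_mono (cone_subset a)).trans ?_
    rw [dimH_iUnion]
    apply iSup_le
    intro p
    exact (Psi_contDiff (n + 3) p.1 p.2.1 p.2.2 a).dimH_range_le
  rw [dimH_union]
  refine lt_of_le_of_lt (max_le (h1 a) (h1 a')) ?_
  exact_mod_cast finrank_par n

end Pool.Agent.Helper5.RI
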