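import Mathlib

/-!
Definitions used in the statement.
-/

open MvPolynomial

namespace Pool.Agent.Helper5.RI

/-- `F` is a form of degree `d` whose complex zero set in the projective plane is nonsingular -/
def NonsingularForm (d : ℕ) (F : MvPolynomial (Fin 3) ℝ) : Prop :=
  F.IsHomogeneous d ∧ ∀ x : Fin 3 → ℂ, (∀ i : Fin 3, eval x
    (pderiv i (MvPolynomial.map (algebraMap ℝ ℂ) F)) = 0) → x = 0

/-- `F` is star-shaped: there are a point `p` with `F(p) ≠ 0` and a linear form `l` with `l(p) = 1`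
such that `F` has no zero on the line `l = 0`, and every ray `p + t v`, `t > 0`, from `p` in the
affine plane `l = 1` contains exactly one zero of `F` -/
def StarShaped (F : MvPolynomial (Fin 3) ℝ) : Prop :=
  ∃ (p : Fin 3 → ℝ) (l : (Fin 3 → ℝ) →ₗ[ℝ] ℝ), l p = 1 ∧ eval p F ≠ 0 ∧
    ∀ v : Fin 3 → ℝ, v ≠ 0 → l v = 0 →
      eval v F ≠ 0 ∧ ∃! t : ℝ, 0 < t ∧ eval (p + t • v) F = 0

end Pool.Agent.Helper5.RI
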