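import Mathlib
import Pool.Agent.Helper5.RI.Base
import Pool.Agent.Helper5.RI.Flow
import Pool.Agent.Helper5.RI.Comp
import Pool.Agent.Helper5.RI.Generic
import Pool.Agent.Helper5.RI.Codim

/-!
The set of forms without real singular points is open; complex nonsingular forms.
-/

open MvPolynomial Finset

namespace Pool.Agent.Helper5.RI

theorem continuous_part (d : ℕ) (i : Fin 3) :
    Continuous fun q : E d × (Fin 3 → ℝ) => aeval q.2 (pderiv i (toPoly q.1)) := by
  have : (fun q : E d × (Fin 3 → ℝ) => aeval q.2 (pderiv i (toPoly q.1))) =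
      fun q => ∑ s : idx d, q.1 s * eval q.2 (pderiv i (monomial s.1 (1 : ℝ))) := by
    funext q
    rw [toPoly, map_sum, map_sum]
    apply Finset.sum_congr rfl
    intro s _
    rw [aeval_eq, show monomial s.1 (q.1 s) = C (q.1 s) * monomial s.1 (1 : ℝ) by
      rw [C_mul_monomial, mul_one], pderiv_C_mul, map_mul, eval_C]
  rw [this]
  apply continuous_finsetSum
  intro s _
  apply Continuous.mul
  · exact (continuous_apply s).comp continuous_fst
  · exact (MvPolynomial.continuous_eval _).comp continuous_snd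

/-- pairs of a form and a singular point on the unit sphere -/
def SingPairs (d : ℕ) : Set (E d × (Metric.sphere (0 : Fin 3 → ℝ) 1)) :=
  {q | ∀ i, aeval (q.2 : Fin 3 → ℝ) (pderiv i (toPoly q.1)) = 0}

theorem isClosed_singPairs (d : ℕ) : IsClosed (SingPairs d) := by
  have h : SingPairs d = ⋂ i : Fin 3, (fun q : E d × (Metric.sphere (0 : Fin 3 → ℝ) 1) =>
      (q.1, (q.2 : Fin 3 → ℝ))) ⁻¹'
      ((fun q : E d × (Fin 3 → ℝ) => aeval q.2 (pderiv i (toPoly q.1))) ⁻¹' {0}) := by
    apply Set.ext
    intro q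
    rw [Set.mem_iInter]
    exact Iff.rfl
  rw [h]
  apply isClosed_iInter
  intro i
  have h1 : IsClosed ((fun q : E d × (Fin 3 → ℝ) => aeval q.2 (pderiv i (toPoly q.1))) ⁻¹' {0}) :=
    IsClosed.preimage (continuous_part d i) isClosed_singleton
  have h2 : Continuous (fun q : E d × (Metric.sphere (0 : Fin 3 → ℝ) 1) =>
      (q.1, (q.2 : Fin 3 → ℝ))) :=
    continuous_fst.prodMk (continuous_subtype_val.comp continuous_snd)
  exact IsClosed.preimage h2 h1

theorem compl_U (d : ℕ) : (U d)ᶜ = Prod.fst '' SingPairs d := by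
  apply Set.ext
  intro c
  constructor
  · intro hc
    simp only [U, Set.mem_compl_iff, Set.mem_setOf_eq] at hc
    push Not at hc
    obtain ⟨x, hx, hx0⟩ := hc
    have hn : ‖x‖ ≠ 0 := norm_ne_zero_iff.2 hx0
    have hmem : ‖x‖⁻¹ • x ∈ Metric.sphere (0 : Fin 3 → ℝ) 1 := by
      rw [mem_sphere_iff_norm, sub_zero, norm_smul, norm_inv, norm_norm]
      exact inv_mul_cancel₀ hn
    refine ⟨(c, ⟨‖x‖⁻¹ • x, hmem⟩), ?_, rfl⟩
    have h1 : Sing (toPoly c) (‖x‖ • (‖x‖⁻¹ • x)) := by
      rw [smul_smul, mul_inv_cancel₀ hn, one_smul]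
      exact hx
    exact aeval_add_smul_smul (toPoly_homogeneous c) hn h1
  · rintro ⟨⟨c', x⟩, hx, rfl⟩
    intro hc
    have h0 : (x : Fin 3 → ℝ) = 0 := hc x hx
    have h1 := x.2
    rw [h0, mem_sphere_iff_norm, sub_zero, norm_zero] at h1
    exact zero_ne_one h1

theorem isOpen_U (d : ℕ) : IsOpen (U d) := by
  rw [← isClosed_compl_iff, compl_U]
  have : CompactSpace (Metric.sphere (0 : Fin 3 → ℝ) 1) :=
    isCompact_iff_compactSpace.1 (isCompact_sphere 0 1)
  exact isClosedMap_fst_of_compactSpace _ (isClosed_singPairs d)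

/-- complex vector of a real vector -/
theorem sing_real {F : MvPolynomial (Fin 3) ℝ} {v : Fin 3 → ℝ} :
    Sing (K := ℂ) F (fun i => (v i : ℂ)) ↔ Sing F v := by
  have h : ∀ G : MvPolynomial (Fin 3) ℝ,
      aeval (fun i => (v i : ℂ)) G = ((aeval v G : ℝ) : ℂ) := by
    intro G
    have := MvPolynomial.aeval_algebraMap_apply ℂ v G
    exact this
  constructor
  · intro hs i
    have := hs i
    rw [h] at this
    exact_mod_cast this
  · intro hs i
    rw [h, hs i]
    simp

/-- forms nonsingular over the complex numbers -/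
def NS (d : ℕ) : Set (E d) := {c | ∀ z : Fin 3 → ℂ, Sing (toPoly c) z → z = 0}

theorem NS_eq (d : ℕ) : NS d = U d \ Bad d := by
  ext c
  constructor
  · intro hc
    refine ⟨?_, ?_⟩
    · intro x hx
      have h1 := hc _ (sing_real.2 hx)
      funext i
      have := congrFun h1 i
      simpa using this
    · rintro ⟨z, hz, hreal⟩
      apply hreal
      refine ⟨0, 0, ?_⟩
      rw [hc z hz]
      funext i
      simp
  · rintro ⟨hU, hB⟩ z hz
    by_contra hz0
    apply hB
    refine ⟨z, hz, ?_⟩
    rintro ⟨r, v, rfl⟩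
    have hr : r ≠ 0 := by
      rintro rfl
      apply hz0
      funext i
      simp
    have h1 : Sing (toPoly c) (fun i => (v i : ℂ)) :=
      aeval_add_smul_smul (r := r) (toPoly_homogeneous c) hr hz
    have h2 := hU v (sing_real.1 h1)
    apply hz0
    funext i
    simp [h2]

/-- the main connectedness statement: forms in the same component of U which are nonsingular over
the complex numbers are joined inside the nonsingular forms -/
theorem joined_NS {d : ℕ} (hd : 3 ≤ d) {a b : E d} (h : Rel d a b) (ha : a ∈ NS d)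
    (hb : b ∈ NS d) : JoinedIn (NS d) a b := by
  obtain ⟨n, rfl⟩ : ∃ n, d = n + 3 := ⟨d - 3, by omega⟩
  rw [NS_eq] at ha hb ⊢
  exact joined_of_preconnected (isOpen_U _) (dense_cones n) isPreconnected_connectedComponentIn
    (connectedComponentIn_subset _ _) (mem_connectedComponentIn h.mem_left) h ha.2 hb.2

end Pool.Agent.Helper5.RI
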