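import Mathlib
import Pool.Agent.Helper5.RI.Defs
import Pool.Agent.Helper5.RI.Base
import Pool.Agent.Helper5.RI.Flow
import Pool.Agent.Helper5.RI.Comp
import Pool.Agent.Helper5.RI.Open

/-!
Star-shaped nonsingular forms are connected to the standard form.
-/

open MvPolynomial

namespace Pool.Agent.Helper5.RI

theorem same_sign {f : ℝ → ℝ} (hf : Continuous f) {a b : ℝ} (hab : a ≤ b)
    (h : ∀ t ∈ Set.Icc a b, f t ≠ 0) (ha : f a < 0) : f b < 0 := by
  by_contra hb
  push Not at hb
  obtain ⟨t, ht, ht0⟩ := intermediate_value_Icc hab hf.continuousOn ⟨ha.le, hb⟩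
  exact h t ht ht0

theorem same_sign' {f : ℝ → ℝ} (hf : Continuous f) {a b : ℝ} (hab : a ≤ b)
    (h : ∀ t ∈ Set.Icc a b, f t ≠ 0) (ha : 0 < f a) : 0 < f b := by
  have := same_sign (f := fun t => - f t) hf.neg hab (fun t ht h0 => h t ht (neg_eq_zero.1 h0))
    (neg_neg_of_pos ha)
  simpa using this

theorem eval_smul' {d : ℕ} {F : MvPolynomial (Fin 3) ℝ} (h : F.IsHomogeneous d) (t : ℝ)
    (x : Fin 3 → ℝ) : eval (t • x) F = t ^ d * eval x F := by
  rw [← aeval_eq, ← aeval_eq, aeval_smul h]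

section

variable {d : ℕ} {F : MvPolynomial (Fin 3) ℝ} {p : Fin 3 → ℝ} {l : (Fin 3 → ℝ) →ₗ[ℝ] ℝ}

theorem cont_ray (F : MvPolynomial (Fin 3) ℝ) (p v : Fin 3 → ℝ) :
    Continuous fun t : ℝ => eval (p + t • v) F := by
  apply (MvPolynomial.continuous_eval F).comp
  fun_prop

/-- far away on a ray the sign is that of the direction -/
theorem far_neg (hF : F.IsHomogeneous d) (hd : Even d) (v : Fin 3 → ℝ) (hv : eval v F < 0)
    (t : ℝ) : ∃ T, t < T ∧ 0 < T ∧ eval (p + T • v) F < 0 := by
  have h1 : Continuous fun s : ℝ => eval (v + s • p) F := cont_ray F v p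
  have h2 : ∀ᶠ s in nhds (0 : ℝ), eval (v + s • p) F < 0 := by
    apply h1.continuousAt.eventually_lt continuousAt_const
    simpa using hv
  obtain ⟨δ, hδ, hδ2⟩ := Metric.eventually_nhds_iff.1 h2
  have hT0 : 0 < max t (1 / δ) + 1 := by
    have : 0 < 1 / δ := by positivity
    have := le_max_right t (1 / δ)
    linarith
  refine ⟨max t (1 / δ) + 1, ?_, hT0, ?_⟩
  · have := le_max_left t (1 / δ)
    linarith
  · set T := max t (1 / δ) + 1 with hT
    have h3 : eval (p + T • v) F = T ^ d * eval (v + T⁻¹ • p) F := by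
      rw [← eval_smul' hF, smul_add, smul_smul, mul_inv_cancel₀ hT0.ne', one_smul, add_comm]
    rw [h3]
    apply mul_neg_of_pos_of_neg (hd.pow_pos hT0.ne')
    apply hδ2
    rw [dist_zero_right, Real.norm_eq_abs, abs_of_pos (inv_pos.2 hT0)]
    have : 1 / δ < T := by
      have := le_max_right t (1 / δ)
      linarith
    rw [inv_lt_comm₀ hT0 hδ]
    simpa using this

theorem far_pos (hF : F.IsHomogeneous d) (hd : Even d) (v : Fin 3 → ℝ) (hv : 0 < eval v F)
    (t : ℝ) : ∃ T, t < T ∧ 0 < T ∧ 0 < eval (p + T • v) F := by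
  obtain ⟨T, h1, h2, h3⟩ := far_neg (p := p) hF.neg hd v (by simpa using hv) t
  exact ⟨T, h1, h2, by simpa using h3⟩

theorem ker_sign (hF : F.IsHomogeneous d) (hd : Even d)
    (hk : ∀ v : Fin 3 → ℝ, v ≠ 0 → l v = 0 → eval v F ≠ 0) {v w : Fin 3 → ℝ} (hv : v ≠ 0)
    (hw : w ≠ 0) (hlv : l v = 0) (hlw : l w = 0) (hneg : eval v F < 0) : eval w F < 0 := by
  by_cases h : ∃ τ ∈ Set.Icc (0 : ℝ) 1, v + τ • (w - v) = 0
  · obtain ⟨τ, hτ, h0⟩ := h
    have hτ0 : τ ≠ 0 := by
      rintro rfl
      simp at h0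
      exact hv h0
    have hτ1 : 1 - τ ≠ 0 := by
      intro h1
      have : τ = 1 := by linarith
      rw [this, one_smul] at h0
      simp at h0
      exact hw h0
    have h1 : w = (-((1 - τ) / τ)) • v := by
      have h2 : τ • w = (-(1 - τ)) • v := by
        have : τ • w - (-(1 - τ)) • v = v + τ • (w - v) := by
          rw [smul_sub, neg_smul, sub_smul, one_smul]
          abel
        rw [h0] at this
        exact sub_eq_zero.1 this
      calc w = τ⁻¹ • (τ • w) := by rw [smul_smul, inv_mul_cancel₀ hτ0, one_smul]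
        _ = τ⁻¹ • ((-(1 - τ)) • v) := by rw [h2]
        _ = _ := by
            rw [smul_smul]
            congr 1
            ring
    rw [h1, eval_smul' hF]
    apply mul_neg_of_pos_of_neg (hd.pow_pos _) hneg
    rw [neg_ne_zero]
    exact div_ne_zero hτ1 hτ0
  · push Not at h
    have h1 := same_sign (f := fun τ : ℝ => eval (v + τ • (w - v)) F) (cont_ray F v (w - v))
      zero_le_one (by
        intro t ht
        apply hk _ (h t ht)
        simp [hlv, hlw]) (by simpa using hneg)
    simpa using h1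

/-- directions at infinity have positive sign -/
theorem ker_pos (hd0 : d ≠ 0) (hF : F.IsHomogeneous d) (hd : Even d)
    (hU : ∀ x : Fin 3 → ℝ, Sing F x → x = 0) (hlp : l p = 1) (hp : eval p F < 0)
    (hk : ∀ v : Fin 3 → ℝ, v ≠ 0 → l v = 0 →
      eval v F ≠ 0 ∧ ∃! t : ℝ, 0 < t ∧ eval (p + t • v) F = 0)
    (v : Fin 3 → ℝ) (hv : v ≠ 0) (hlv : l v = 0) : 0 < eval v F := by
  by_contra hcon
  push Not at hcon
  have hneg : eval v F < 0 := lt_of_le_of_ne hcon (hk v hv hlv).1
  have hall : ∀ w : Fin 3 → ℝ, w ≠ 0 → l w = 0 → eval w F < 0 := fun w hw hlw =>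
    ker_sign hF hd (fun v hv hlv => (hk v hv hlv).1) hv hw hlv hlw hneg
  -- nonpositivity on rays
  have hray : ∀ w : Fin 3 → ℝ, w ≠ 0 → l w = 0 → ∀ t : ℝ, 0 < t → eval (p + t • w) F ≤ 0 := by
    intro w hw hlw t ht
    by_contra hpos
    push Not at hpos
    have hc := cont_ray F p w
    obtain ⟨a, ha, ha0⟩ := intermediate_value_Icc ht.le hc.continuousOn
      (show (0 : ℝ) ∈ Set.Icc (eval (p + (0 : ℝ) • w) F) (eval (p + t • w) F) from
        ⟨by simpa using hp.le, hpos.le⟩)
    obtain ⟨T, hT1, hT2, hT3⟩ := far_neg (p := p) hF hd w (hall w hw hlw) t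
    obtain ⟨b, hb, hb0⟩ := intermediate_value_Icc' hT1.le hc.continuousOn
      (show (0 : ℝ) ∈ Set.Icc (eval (p + T • w) F) (eval (p + t • w) F) from
        ⟨hT3.le, hpos.le⟩)
    have ha' : 0 < a := by
      rcases eq_or_lt_of_le ha.1 with h | h
      · exfalso
        have h1 : eval (p + a • w) F = 0 := ha0
        rw [← h, zero_smul, add_zero] at h1
        exact hp.ne h1
      · exact h
    obtain ⟨t1, ht1, huniq⟩ := (hk w hw hlw).2
    have e1 := huniq a ⟨ha', ha0⟩
    have e2 := huniq b ⟨lt_of_lt_of_le ht hb.1, hb0⟩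
    have e3 : a = t := by
      have h1 := ha.2
      have h2 := hb.1
      linarith
    have h4 : eval (p + t • w) F = 0 := by
      rw [← e3]
      exact ha0
    exact hpos.ne' h4
  have hnonpos : ∀ x : Fin 3 → ℝ, eval x F ≤ 0 := by
    intro x
    by_cases hx : x = 0
    · have : eval x F = 0 := by
        have h1 := eval_smul' hF 0 x
        rw [zero_pow hd0, zero_mul, zero_smul] at h1
        rw [hx]
        exact h1
      exact this.le
    · by_cases hlx : l x = 0
      · exact (hall x hx hlx).le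
      · have hxe : x = l x • (p + (1 : ℝ) • ((l x)⁻¹ • x - p)) := by
          rw [one_smul, add_sub_cancel, smul_smul, mul_inv_cancel₀ hlx, one_smul]
        rw [hxe, eval_smul' hF]
        apply mul_nonpos_of_nonneg_of_nonpos (hd.pow_nonneg _)
        by_cases hw : (l x)⁻¹ • x - p = 0
        · rw [hw, smul_zero, add_zero]
          exact hp.le
        · apply hray _ hw _ 1 one_pos
          rw [map_sub, map_smul, hlp, smul_eq_mul, inv_mul_cancel₀ hlx, sub_self]
  obtain ⟨t1, ⟨ht1, ht10⟩, -⟩ := (hk v hv hlv).2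
  have hs : Sing F (p + t1 • v) := by
    rw [sing_iff]
    intro w
    have h1 := hasDerivAt_aeval F (p + t1 • v) w
    have h2 : IsLocalMax (fun t : ℝ => aeval ((p + t1 • v) + t • w) F) 0 := by
      apply Filter.Eventually.of_forall
      intro t
      show aeval ((p + t1 • v) + t • w) F ≤ aeval ((p + t1 • v) + (0 : ℝ) • w) F
      rw [zero_smul, add_zero, aeval_eq, aeval_eq, ht10]
      exact hnonpos _
    have h3 := h2.hasDerivAt_eq_zero h1
    rw [h3] at h1
    exact h1
  have h4 := hU _ hs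
  have h5 : l (p + t1 • v) = 0 := by
    rw [h4, map_zero]
  rw [map_add, map_smul, hlp, hlv] at h5
  simp at h5

/-- the sign pattern on a ray -/
theorem ray_sign (hF : F.IsHomogeneous d) (hd : Even d) (hp : eval p F < 0)
    (v : Fin 3 → ℝ) (hpos : 0 < eval v F)
    (hk : ∃! t : ℝ, 0 < t ∧ eval (p + t • v) F = 0) :
    ∃ t₀ : ℝ, 0 < t₀ ∧ ∀ t : ℝ, 0 < t →
      (t < t₀ → eval (p + t • v) F < 0) ∧ (t₀ < t → 0 < eval (p + t • v) F) := by
  obtain ⟨t1, ⟨ht1, ht10⟩, huniq⟩ := hk
  have hc := cont_ray F p v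
  refine ⟨t1, ht1, fun t ht => ⟨fun hlt => ?_, fun hlt => ?_⟩⟩
  · apply same_sign hc ht.le _ (by simpa using hp)
    intro s hs h0
    rcases eq_or_lt_of_le hs.1 with h | h
    · rw [← h, zero_smul, add_zero] at h0
      exact hp.ne h0
    · have := huniq s ⟨h, h0⟩
      have := hs.2
      linarith
  · obtain ⟨T, hT1, hT2, hT3⟩ := far_pos (p := p) hF hd v hpos t
    by_contra hle
    push Not at hle
    rcases eq_or_lt_of_le hle with h | h
    · have := huniq t ⟨ht, h⟩
      linarith
    · obtain ⟨b, hb, hb0⟩ := intermediate_value_Icc hT1.le hc.continuousOn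
        (show (0 : ℝ) ∈ Set.Icc (eval (p + t • v) F) (eval (p + T • v) F) from
          ⟨h.le, hT3.le⟩)
      have := huniq b ⟨lt_of_lt_of_le ht hb.1, hb0⟩
      have := hb.1
      linarith

/-- a matrix adapted to p and l -/
theorem exists_matrix (hlp : l p = 1) : ∃ g : Matrix (Fin 3) (Fin 3) ℝ, g.det ≠ 0 ∧
    act g (![0, 0, 1] : Fin 3 → ℝ) = p ∧ ∀ v : Fin 3 → ℝ, v 2 = 0 → l (act g v) = 0 := by
  have hsurj : Function.Surjective l := by
    intro r
    exact ⟨r • p, by rw [map_smul, hlp, smul_eq_mul, mul_one]⟩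
  have hfin : Module.finrank ℝ (LinearMap.ker l) = 2 := by
    have h1 := LinearMap.finrank_range_add_finrank_ker l
    rw [LinearMap.range_eq_top.2 hsurj, finrank_top] at h1
    simp at h1
    omega
  let b := Module.finBasisOfFinrankEq ℝ (LinearMap.ker l) hfin
  let g : Matrix (Fin 3) (Fin 3) ℝ := fun i m =>
    if m = 0 then (b 0 : Fin 3 → ℝ) i else if m = 1 then (b 1 : Fin 3 → ℝ) i else p i
  have hact : ∀ v : Fin 3 → ℝ, act g v =
      v 0 • (b 0 : Fin 3 → ℝ) + v 1 • (b 1 : Fin 3 → ℝ) + v 2 • p := by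
    intro v
    funext i
    simp [act, g, Fin.sum_univ_three, mul_comm]
  have hb : ∀ m, l (b m : Fin 3 → ℝ) = 0 := fun m => (b m).2
  refine ⟨g, ?_, ?_, ?_⟩
  · intro hdet
    obtain ⟨v, hv, hv0⟩ := Matrix.exists_mulVec_eq_zero_iff.2 hdet
    have h0 : act g v = 0 := by
      rw [← hv0]
      funext i
      simp [act, Matrix.mulVec, dotProduct]
    rw [hact] at h0
    have h2 : v 2 = 0 := by
      have := congrArg l h0
      simpa [hb, hlp] using this
    rw [h2, zero_smul, add_zero] at h0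
    have h3 : ∑ i : Fin 2, (![v 0, v 1] : Fin 2 → ℝ) i • b i = 0 := by
      apply Subtype.ext
      rw [Fin.sum_univ_two]
      exact h0
    have h4 := Fintype.linearIndependent_iff.1 b.linearIndependent _ h3
    exact hv (vec_cases v (h4 0) (h4 1) h2)
  · rw [hact]
    simp
  · intro v hv
    rw [hact, hv]
    simp [hb]

theorem smul_mem_U {c : E d} (hc : c ∈ U d) : -c ∈ U d := by
  intro x hx
  apply hc
  intro i
  have := hx i
  rw [toPoly_neg, map_neg, map_neg, neg_eq_zero] at this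
  exact this

/-- star-shaped forms are connected to the standard form, up to sign -/
theorem star_rel (hd : Even d) (hd0 : d ≠ 0) {c : E d} (hU : c ∈ U d)
    (hs : StarShaped (toPoly c)) : Rel d c (st d) ∨ Rel d (-c) (st d) := by
  obtain ⟨p, l, hlp, hp, hk⟩ := hs
  have key : ∀ c : E d, c ∈ U d → eval p (toPoly c) < 0 →
      (∀ v : Fin 3 → ℝ, v ≠ 0 → l v = 0 →
        eval v (toPoly c) ≠ 0 ∧ ∃! t : ℝ, 0 < t ∧ eval (p + t • v) (toPoly c) = 0) →
      Rel d c (st d) := by
    intro c hU hp hk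
    obtain ⟨g, hg, hgp, hgl⟩ := exists_matrix hlp
    have hg1 : g * g⁻¹ = 1 := Matrix.mul_nonsing_inv g (isUnit_iff_ne_zero.2 hg)
    have hg2 : g⁻¹ * g = 1 := Matrix.nonsing_inv_mul g (isUnit_iff_ne_zero.2 hg)
    have hF := toPoly_homogeneous c
    have hpos := ker_pos hd0 hF hd hU hlp hp hk
    have hne : ∀ v : Fin 3 → ℝ, v ≠ 0 → act g v ≠ 0 := fun v hv h => hv (act_eq_zero hg2 h)
    have hstd : Std (compE d g c) := by
      refine ⟨?_, ?_, ?_⟩
      · rw [toPoly_compE, aeval_comp, hgp, aeval_eq]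
        exact hp
      · intro v hv hv2
        rw [toPoly_compE, aeval_comp, aeval_eq]
        exact hpos _ (hne v hv) (hgl v hv2)
      · intro v hv hv2
        obtain ⟨t₀, h0, h1⟩ := ray_sign hF hd hp (act g v) (hpos _ (hne v hv) (hgl v hv2))
          (hk _ (hne v hv) (hgl v hv2)).2
        refine ⟨t₀, h0, fun t ht => ?_⟩
        rw [toPoly_compE, aeval_comp, aeval_eq, act_add, act_smul, hgp]
        exact h1 t ht
    have hcU : compE d g c ∈ U d := compE_mem hg1 hU
    have r1 : Rel d (compE d g c) (diag (wt d 1) (compE d g c)) := flow hd hd0 hstd hcU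
    have r2 : Rel d (diag (wt d 1) (compE d g c)) (st d) :=
      K0_conn hd0 (diag_wt_one_mem hstd) (st_mem hd hd0)
    have r3 := (r1.trans r2).compE hg2
    rw [compE_compE, hg1, compE_one] at r3
    have hginv : (g⁻¹).det ≠ 0 := by
      intro h
      have := congrArg Matrix.det hg1
      rw [Matrix.det_mul, h, mul_zero, Matrix.det_one] at this
      exact zero_ne_one this
    exact r3.trans (rel_gl hd hd0 g⁻¹ hginv).symm
  rcases lt_or_gt_of_ne hp with h | h
  · left
    exact key c hU h hk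
  · right
    apply key (-c) (smul_mem_U hU)
    · rw [toPoly_neg, map_neg]
      linarith
    · intro v hv hlv
      simp only [toPoly_neg, map_neg, ne_eq, neg_eq_zero]
      exact hk v hv hlv

end

end Pool.Agent.Helper5.RI
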